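import Pool.Agent.Q27.VG.Rel

/-!
# The action on Cantor space

The four generators act on Cantor space as elements of Thompson's group `V`, and the relations hold.
-/

set_option autoImplicit false

namespace Pool.Agent.Q27.VG

/-- Cantor space -/
abbrev C : Type := ℕ → Bool

/-- putting a letter in front -/
def cons (b : Bool) (w : C) : C := fun n => Nat.casesOn n b w

/-- removing the first letter -/
def tl (w : C) : C := fun n => w (n + 1)

@[simp] theorem cons_zero (b : Bool) (w : C) : cons b w 0 = b := rfl
@[simp] theorem tl_cons (b : Bool) (w : C) : tl (cons b w) = w := rfl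
theorem cons_tl (w : C) : cons (w 0) (tl w) = w := by
  funext n; cases n <;> rfl

theorem exists_cons (w : C) : ∃ b v, w = cons b v := ⟨w 0, tl w, (cons_tl w).symm⟩

/-- putting a word in front -/
def cat : List Bool → C → C
  | [], w => w
  | b :: u, w => cons b (cat u w)

theorem exists_cat (n : ℕ) (w : C) : ∃ u : List Bool, u.length = n ∧ ∃ v, w = cat u v := by
  induction n generalizing w with
  | zero => exact ⟨[], rfl, w, rfl⟩
  | succ n ih =>
    obtain ⟨b, v, rfl⟩ := exists_cons w
    obtain ⟨u, hu, v', rfl⟩ := ih v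
    exact ⟨b :: u, by simp [hu], v', rfl⟩

/-! ### acting on a half -/

/-- `g` acting on the cone `1` -/
def lfF (g : C → C) (w : C) : C := if w 0 then cons true (g (tl w)) else w

/-- `g` acting on the cone `1` -/
def lfE (g : Equiv.Perm C) : Equiv.Perm C where
  toFun := lfF g
  invFun := lfF g.symm
  left_inv := by
    intro w
    obtain ⟨b, w, rfl⟩ := exists_cons w
    cases b <;> simp [lfF]
  right_inv := by
    intro w
    obtain ⟨b, w, rfl⟩ := exists_cons w
    cases b <;> simp [lfF]

@[simp] theorem lfE_false (g : Equiv.Perm C) (w : C) : lfE g (cons false w) = cons false w := rfl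
@[simp] theorem lfE_true (g : Equiv.Perm C) (w : C) : lfE g (cons true w) = cons true (g w) := rfl

/-- `g` acting on the cone `1`, as a homomorphism -/
def lf : Equiv.Perm C →* Equiv.Perm C where
  toFun := lfE
  map_one' := by
    apply Equiv.ext
    intro w
    obtain ⟨b, w, rfl⟩ := exists_cons w
    cases b <;> rfl
  map_mul' := by
    intro g h
    apply Equiv.ext
    intro w
    obtain ⟨b, w, rfl⟩ := exists_cons w
    cases b <;> simp

theorem lf_false (g : Equiv.Perm C) (w : C) : lf g (cons false w) = cons false w := rfl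
theorem lf_true (g : Equiv.Perm C) (w : C) : lf g (cons true w) = cons true (g w) := rfl

/-! ### the generators -/

/-- `(0 1)` as a function -/
def qf (w : C) : C := cons (!(w 0)) (tl w)

/-- `(0 10)` as a function -/
def pf (w : C) : C := if w 0 then (if w 1 then w else tl w) else cons true w

theorem qf_cons (b : Bool) (w : C) : qf (cons b w) = cons (!b) w := rfl
theorem pf_0 (w : C) : pf (cons false w) = cons true (cons false w) := rfl
theorem pf_10 (w : C) : pf (cons true (cons false w)) = cons false w := rfl
theorem pf_11 (w : C) : pf (cons true (cons true w)) = cons true (cons true w) := rfl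

theorem qf_qf (w : C) : qf (qf w) = w := by
  obtain ⟨b, w, rfl⟩ := exists_cons w
  simp [qf_cons]

theorem pf_pf (w : C) : pf (pf w) = w := by
  obtain ⟨b, w, rfl⟩ := exists_cons w
  cases b
  · rw [pf_0, pf_10]
  · obtain ⟨b, w, rfl⟩ := exists_cons w
    cases b
    · rw [pf_10, pf_0]
    · rw [pf_11, pf_11]

/-- `(0 1)` -/
def q0 : Equiv.Perm C := ⟨qf, qf, qf_qf, qf_qf⟩

/-- `(0 10)` -/
def p0 : Equiv.Perm C := ⟨pf, pf, pf_pf, pf_pf⟩

/-- the generators -/
def gc : Fin 4 → Equiv.Perm C := ![p0, lf p0, q0, lf q0]

/-- `00 ↦ 0, 01 ↦ 10, 1 ↦ 11` -/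
def X0 : Equiv.Perm C := lf q0 * p0 * q0

theorem X0_00 (w : C) : X0 (cons false (cons false w)) = cons false w := rfl
theorem X0_01 (w : C) : X0 (cons false (cons true w)) = cons true (cons false w) := rfl
theorem X0_1 (w : C) : X0 (cons true w) = cons true (cons true w) := rfl

theorem X0_lf (h : Equiv.Perm C) : X0 * lf h * X0⁻¹ = lf (lf h) := by
  rw [mul_inv_eq_iff_eq_mul]
  apply Equiv.ext
  intro w
  obtain ⟨b, w, rfl⟩ := exists_cons w
  rw [Equiv.Perm.mul_apply, Equiv.Perm.mul_apply]
  cases b
  · rw [lf_false]
    obtain ⟨b, w, rfl⟩ := exists_cons w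
    cases b
    · rw [X0_00, lf_false]
    · rw [X0_01, lf_true, lf_false]
  · rw [lf_true, X0_1, X0_1, lf_true, lf_true]

theorem ps_gc (j : ℕ) : ps gc (j + 1) = lf (ps gc j) := by
  induction j with
  | zero => rfl
  | succ j ih =>
    have h1 : ps gc (j + 2) = X0 * ps gc (j + 1) * X0⁻¹ := rfl
    rw [h1, ih, X0_lf]

theorem qs_gc (j : ℕ) : qs gc (j + 1) = lf (qs gc j) := by
  induction j with
  | zero => rfl
  | succ j ih =>
    have h1 : qs gc (j + 2) = X0 * qs gc (j + 1) * X0⁻¹ := rfl
    rw [h1, ih, X0_lf]

/-! ### symbolic computation -/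

/-- symbolic maps: the map and its inverse on prefixes -/
structure Sym where
  f : List Bool → Option (List Bool)
  g : List Bool → Option (List Bool)

instance : Mul Sym := ⟨fun a b => ⟨fun u => (b.f u).bind a.f, fun u => (a.g u).bind b.g⟩⟩
instance : Inv Sym := ⟨fun a => ⟨a.g, a.f⟩⟩
instance : One Sym := ⟨⟨some, some⟩⟩

/-- `s` describes `g` -/
structure Sem (g : Equiv.Perm C) (s : Sym) : Prop where
  fw : ∀ u v, s.f u = some v → ∀ w, g (cat u w) = cat v w
  bw : ∀ u v, s.g u = some v → ∀ w, g⁻¹ (cat u w) = cat v w

theorem Sem.mul {g h : Equiv.Perm C} {s t : Sym} (hg : Sem g s) (hh : Sem h t) :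
    Sem (g * h) (s * t) := by
  constructor
  · intro u v huv w
    change (t.f u).bind s.f = some v at huv
    rw [Option.bind_eq_some_iff] at huv
    obtain ⟨x, h1, h2⟩ := huv
    rw [Equiv.Perm.mul_apply, hh.fw u x h1, hg.fw x v h2]
  · intro u v huv w
    change (s.g u).bind t.g = some v at huv
    rw [Option.bind_eq_some_iff] at huv
    obtain ⟨x, h1, h2⟩ := huv
    rw [mul_inv_rev, Equiv.Perm.mul_apply, hg.bw u x h1, hh.bw x v h2]

theorem Sem.inv {g : Equiv.Perm C} {s : Sym} (hg : Sem g s) : Sem g⁻¹ s⁻¹ := by
  constructor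
  · exact hg.bw
  · intro u v huv w
    rw [inv_inv]
    exact hg.fw u v huv w

theorem Sem.one : Sem 1 1 := by
  constructor
  · intro u v huv w
    change some u = some v at huv
    rw [Option.some.inj huv]
    rfl
  · intro u v huv w
    change some u = some v at huv
    rw [Option.some.inj huv]
    rfl

/-- symbolic map on the cone `1` -/
def slf (f : List Bool → Option (List Bool)) : List Bool → Option (List Bool)
  | [] => none
  | false :: u => some (false :: u)
  | true :: u => (f u).map (true :: ·)

/-- symbolic `(0 1)` -/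
def sq0 : List Bool → Option (List Bool)
  | [] => none
  | b :: u => some ((!b) :: u)

/-- symbolic `(0 10)` -/
def sp0 : List Bool → Option (List Bool)
  | false :: u => some (true :: false :: u)
  | true :: false :: u => some (false :: u)
  | true :: true :: u => some (true :: true :: u)
  | _ => none

/-- symbolic `p j` -/
def sp : ℕ → Sym
  | 0 => ⟨sp0, sp0⟩
  | j + 1 => ⟨slf (sp j).f, slf (sp j).g⟩

/-- symbolic `q j` -/
def sqq : ℕ → Sym
  | 0 => ⟨sq0, sq0⟩
  | j + 1 => ⟨slf (sqq j).f, slf (sqq j).g⟩

theorem Sem.lf {g : Equiv.Perm C} {s : Sym} (hg : Sem g s) :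
    Sem (VG.lf g) ⟨slf s.f, slf s.g⟩ := by
  constructor
  · intro u v huv w
    rcases u with _ | ⟨b, u⟩
    · simp [slf] at huv
    · cases b
      · simp only [slf, Option.some.injEq] at huv
        rw [← huv]
        rfl
      · simp only [slf, Option.map_eq_some_iff] at huv
        obtain ⟨x, h1, rfl⟩ := huv
        change VG.lf g (cons true (cat u w)) = cons true (cat x w)
        rw [lf_true, hg.fw u x h1]
  · intro u v huv w
    rcases u with _ | ⟨b, u⟩
    · simp [slf] at huv
    · cases b
      · simp only [slf, Option.some.injEq] at huv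
        rw [← huv]
        rfl
      · simp only [slf, Option.map_eq_some_iff] at huv
        obtain ⟨x, h1, rfl⟩ := huv
        change (VG.lf g)⁻¹ (cons true (cat u w)) = cons true (cat x w)
        rw [← map_inv, lf_true, hg.bw u x h1]

theorem sem_q0 : Sem q0 ⟨sq0, sq0⟩ := by
  have h : ∀ u v, sq0 u = some v → ∀ w, q0 (cat u w) = cat v w := by
    intro u v huv w
    rcases u with _ | ⟨b, u⟩
    · simp [sq0] at huv
    · simp only [sq0, Option.some.injEq] at huv
      rw [← huv]
      rfl
  exact ⟨h, h⟩

theorem sem_p0 : Sem p0 ⟨sp0, sp0⟩ := by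
  have h : ∀ u v, sp0 u = some v → ∀ w, p0 (cat u w) = cat v w := by
    intro u v huv w
    rcases u with _ | ⟨b, u⟩
    · simp [sp0] at huv
    · cases b
      · simp only [sp0, Option.some.injEq] at huv
        rw [← huv]
        rfl
      · rcases u with _ | ⟨b, u⟩
        · simp [sp0] at huv
        · cases b
          · simp only [sp0, Option.some.injEq] at huv
            rw [← huv]
            rfl
          · simp only [sp0, Option.some.injEq] at huv
            rw [← huv]
            rfl
  exact ⟨h, h⟩

theorem sem_p (j : ℕ) : Sem (ps gc j) (sp j) := by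
  induction j with
  | zero => exact sem_p0
  | succ j ih =>
    rw [ps_gc]
    exact ih.lf

theorem sem_q (j : ℕ) : Sem (qs gc j) (sqq j) := by
  induction j with
  | zero => exact sem_q0
  | succ j ih =>
    rw [qs_gc]
    exact ih.lf

/-- all words of length `n` -/
def words : ℕ → List (List Bool)
  | 0 => [[]]
  | n + 1 => (words n).map (false :: ·) ++ (words n).map (true :: ·)

theorem mem_words (n : ℕ) (u : List Bool) (hu : u.length = n) : u ∈ words n := by
  induction n generalizing u with
  | zero =>
    rw [List.length_eq_zero_iff] at hu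
    rw [hu]
    simp [words]
  | succ n ih =>
    rcases u with _ | ⟨b, u⟩
    · simp at hu
    · have := ih u (by simpa using hu)
      cases b <;> simp [words, this]

/-- symbolic equality -/
def SEq (n : ℕ) (s t : Sym) : Bool := (words n).all fun u => (s.f u).isSome && (s.f u == t.f u)

theorem Sem.eq {g h : Equiv.Perm C} {s t : Sym} (hg : Sem g s) (hh : Sem h t) (n : ℕ)
    (hst : SEq n s t = true) : g = h := by
  apply Equiv.ext
  intro w
  obtain ⟨u, hu, v, rfl⟩ := exists_cat n w
  have h1 := List.all_eq_true.1 hst u (mem_words n u hu)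
  rw [Bool.and_eq_true, beq_iff_eq, Option.isSome_iff_exists] at h1
  obtain ⟨⟨x, hx⟩, h2⟩ := h1
  rw [hg.fw u x hx, hh.fw u x (by rw [← h2, hx])]

end Pool.Agent.Q27.VG
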