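import Pool.Agent.Q27.VG.Cantor

/-!
# The relations hold on Cantor space
-/

set_option autoImplicit false

namespace Pool.Agent.Q27.VG

/-- symbolic `xw` -/
def sx (i : ℕ) : Sym := sqq (i + 1) * sp i * sqq i

/-- symbolic `bw` -/
def sb (i : ℕ) : Sym := (sx i)⁻¹ * sp (i + 1) * sqq (i + 2) * sp (i + 1) * sx i

/-- symbolic `ew` -/
def se (i : ℕ) : Sym := sqq (i + 1) * sp i * sb (i + 1) * sp i * sqq (i + 1)

/-- symbolic `gpw` -/
def sgp (i : ℕ) : Sym :=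
  sqq i * sqq (i + 1) * sqq i * (sqq (i + 1) * sp (i + 1) * sqq (i + 1)) * sb i *
    (sqq (i + 1) * sp (i + 1) * sqq (i + 1)) * (sqq i * sqq (i + 1) * sqq i) *
    ((sqq (i + 1) * sqq (i + 2) * sp (i + 1) * sqq (i + 2) * sqq (i + 1)) * sb i *
      (sqq (i + 1) * sqq (i + 2) * sp (i + 1) * sqq (i + 2) * sqq (i + 1)))

/-- symbolic `gk` -/
def sgk (i : ℕ) : Sym := sp i * (sx (i + 1))⁻¹ * sp i

/-- symbolic `gew` -/
def sge (i : ℕ) : Sym := sgk i * sp i * (sgk i)⁻¹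

/-- symbolic `gf` -/
def sgf (i : ℕ) : Sym := sp i * sqq (i + 1) * sqq (i + 2) * sqq (i + 1) * sp i * sqq (i + 1)

/-- symbolic `gqw` -/
def sgq (i : ℕ) : Sym := sge i * (sgf i * sge i * (sgf i)⁻¹)

theorem sem_x (i : ℕ) : Sem (xw (ps gc) (qs gc) i) (sx i) :=
  ((sem_q _).mul (sem_p _)).mul (sem_q _)

theorem sem_b (i : ℕ) : Sem (bw (ps gc) (qs gc) i) (sb i) :=
  ((((sem_x i).inv.mul (sem_p _)).mul (sem_q _)).mul (sem_p _)).mul (sem_x i)

theorem sem_e (i : ℕ) : Sem (ew (ps gc) (qs gc) i) (se i) :=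
  ((((sem_q _).mul (sem_p _)).mul (sem_b _)).mul (sem_p _)).mul (sem_q _)

theorem sem_gp (i : ℕ) : Sem (gpw (ps gc) (qs gc) i) (sgp i) := by
  have a := ((sem_q i).mul (sem_q (i + 1))).mul (sem_q i)
  have b := ((sem_q (i + 1)).mul (sem_p (i + 1))).mul (sem_q (i + 1))
  have c := ((((sem_q (i + 1)).mul (sem_q (i + 2))).mul (sem_p (i + 1))).mul (sem_q (i + 2))).mul
    (sem_q (i + 1))
  exact ((((a.mul b).mul (sem_b i)).mul b).mul a).mul ((c.mul (sem_b i)).mul c)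

theorem sem_gk (i : ℕ) : Sem (gk (ps gc) (qs gc) i) (sgk i) :=
  ((sem_p i).mul (sem_x _).inv).mul (sem_p i)

theorem sem_ge (i : ℕ) : Sem (gew (ps gc) (qs gc) i) (sge i) :=
  ((sem_gk i).mul (sem_p i)).mul (sem_gk i).inv

theorem sem_gf (i : ℕ) : Sem (gf (ps gc) (qs gc) i) (sgf i) :=
  (((((sem_p i).mul (sem_q _)).mul (sem_q _)).mul (sem_q _)).mul (sem_p i)).mul (sem_q _)

theorem sem_gq (i : ℕ) : Sem (gqw (ps gc) (qs gc) i) (sgq i) :=
  (sem_ge i).mul (((sem_gf i).mul (sem_ge i)).mul (sem_gf i).inv)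

/-- symbolic `four` -/
def sfour (i : ℕ) : List Sym := [sp i, sqq i, sp (i + 1), sqq (i + 1)]

theorem four_sem {i : ℕ} {y : Equiv.Perm C} (hy : y ∈ four (ps gc) (qs gc) i) :
    ∃ s ∈ sfour i, Sem y s := by
  simp only [four, List.mem_cons, List.not_mem_nil, or_false] at hy
  rcases hy with rfl | rfl | rfl | rfl
  · exact ⟨sp i, by simp [sfour], sem_p _⟩
  · exact ⟨sqq i, by simp [sfour], sem_q _⟩
  · exact ⟨sp (i + 1), by simp [sfour], sem_p _⟩
  · exact ⟨sqq (i + 1), by simp [sfour], sem_q _⟩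

theorem rels_gc : Rels (ps gc) (qs gc) 0 where
  pp := ((sem_p 0).mul (sem_p 0)).eq Sem.one 6 (by decide +kernel)
  qq := ((sem_q 0).mul (sem_q 0)).eq Sem.one 6 (by decide +kernel)
  bb := ((sem_b 0).mul (sem_b 0)).eq Sem.one 6 (by decide +kernel)
  ee := ((sem_e 0).mul (sem_e 0)).eq Sem.one 6 (by decide +kernel)
  xp := (((sem_x 0).mul (sem_p 1)).mul (sem_x 0).inv).eq (sem_p 2) 6 (by decide +kernel)
  xq := (((sem_x 0).mul (sem_q 1)).mul (sem_x 0).inv).eq (sem_q 2) 6 (by decide +kernel)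
  bpp := (((sem_p 0).mul (sem_p 1)).mul (sem_p 0)).eq (((sem_p 1).mul (sem_p 0)).mul (sem_p 1)) 6
    (by decide +kernel)
  bpq := (((sem_p 0).mul (sem_q 1)).mul (sem_p 0)).eq (((sem_q 1).mul (sem_p 0)).mul (sem_q 1)) 6
    (by decide +kernel)
  bee := (((sem_e 0).mul (sem_e 1)).mul (sem_e 0)).eq (((sem_e 1).mul (sem_e 0)).mul (sem_e 1)) 6
    (by decide +kernel)
  beb := (((sem_e 0).mul (sem_b 1)).mul (sem_e 0)).eq (((sem_b 1).mul (sem_e 0)).mul (sem_b 1)) 6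
    (by decide +kernel)
  pe := ((sem_p 0).mul (sem_e 0)).eq ((sem_e 0).mul (sem_p 0)) 6 (by decide +kernel)
  qb := ((sem_q 0).mul (sem_b 0)).eq ((sem_b 0).mul (sem_q 0)) 6 (by decide +kernel)
  r1 := (((sem_p 1).mul (sem_e 0)).mul (sem_p 1)).eq (((sem_e 1).mul (sem_e 0)).mul (sem_e 1)) 6
    (by decide +kernel)
  r2 := (((sem_p 0).mul (sem_e 1)).mul (sem_p 0)).eq (((sem_e 0).mul (sem_e 1)).mul (sem_e 0)) 6
    (by decide +kernel)
  r3 := (((sem_q 1).mul (sem_e 0)).mul (sem_q 1)).eq (((sem_b 1).mul (sem_e 0)).mul (sem_b 1)) 6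
    (by decide +kernel)
  r4 := (((sem_p 0).mul (sem_b 1)).mul (sem_p 0)).eq (((sem_e 0).mul (sem_b 1)).mul (sem_e 0)) 6
    (by decide +kernel)
  gp := (sem_p 0).eq (sem_gp 0) 6 (by decide +kernel)
  gq := (sem_q 0).eq (sem_gq 0) 6 (by decide +kernel)
  pc := by
    intro y hy
    obtain ⟨s, hs, h⟩ := four_sem hy
    have key : ((sfour 2).all fun s => SEq 6 (sp 0 * s) (s * sp 0)) = true := by decide +kernel
    exact ((sem_p 0).mul h).eq (h.mul (sem_p 0)) 6 (List.all_eq_true.1 key s hs)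
  ec := by
    intro y hy
    obtain ⟨s, hs, h⟩ := four_sem hy
    have key : ((sfour 2).all fun s => SEq 6 (se 0 * s) (s * se 0)) = true := by decide +kernel
    exact ((sem_e 0).mul h).eq (h.mul (sem_e 0)) 6 (List.all_eq_true.1 key s hs)
  lc := by
    intro y hy z hz
    obtain ⟨s, hs, h⟩ := four_sem hy
    obtain ⟨t, ht, h'⟩ := four_sem hz
    have key : ((sfour 1).all fun s => (sfour 1).all fun t =>
        SEq 6 (s * (sqq 0 * t * sqq 0)) (sqq 0 * t * sqq 0 * s)) = true := by decide +kernel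
    exact (h.mul (((sem_q 0).mul h').mul (sem_q 0))).eq ((((sem_q 0).mul h').mul (sem_q 0)).mul h) 6
      (List.all_eq_true.1 (List.all_eq_true.1 key s hs) t ht)

theorem rels_gc_one : Rels (ps gc) (qs gc) 1 :=
  (rels_gc.map lf).congr (fun j => ps_gc j) (fun j => qs_gc j)

end Pool.Agent.Q27.VG
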