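import Mathlib

/-!
# Counting words in a strand system

A strand system is a group with a symmetric group `P` permuting the strands, local involutions
`A i s` on the strands and a second symmetric group `B` permuting the right halves of the strands.
When the local letters sit at places which are far apart, few elements are products of `n` letters.
-/

set_option autoImplicit false

namespace Pool.Agent.Q27.VG

open Equiv

/-- A strand system with `m` strands. -/
structure Strand (G : Type) [Group G] (ι : Type) (m : ℕ) where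
  P : Perm (Fin m) →* G
  B : Perm (Fin m) →* G
  A : ι → Fin m → G
  PA : ∀ σ i s, P σ * A i s * (P σ)⁻¹ = A i (σ s)
  PB : ∀ σ ρ, P σ * B ρ * (P σ)⁻¹ = B (σ * ρ * σ⁻¹)
  BA : ∀ (ρ : Perm (Fin m)) i s, ρ s = s → B ρ * A i s = A i s * B ρ
  AA : ∀ i j s t, s ≠ t → A i s * A j t = A j t * A i s
  A2 : ∀ i s, A i s * A i s = 1

/-- The places of the letters: local letters at `h i`, the half swap at `hb`, `hb'`. -/
structure Place (ι : Type) (m D : ℕ) where
  h : ι → Fin m
  hb : Fin m
  hb' : Fin m
  dd : Option ι → Fin m → ℕ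
  dm : ∀ T (j j' : Fin m), (j' : ℕ) = j + 1 → dd T j' ≤ dd T j + 1 ∧ dd T j ≤ dd T j' + 1
  d0 : ∀ i, dd (some i) (h i) = 0
  db : dd none hb = 0
  db' : dd none hb' = 0
  dD : ∀ T i, T ≠ some i → D ≤ dd T (h i)

section
variable {G : Type} [Group G] {ι : Type} {m D : ℕ}

/-- the letters -/
def Strand.Letter (S : Strand G ι m) (p : Place ι m D) (g : G) : Prop :=
  (∃ j j' : Fin m, (j' : ℕ) = j + 1 ∧ g = S.P (swap j j')) ∨ (∃ i, g = S.A i (p.h i)) ∨
    g = S.B (swap p.hb p.hb')

/-- the items of the normal form -/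
abbrev Item (ι : Type) (m : ℕ) : Type := Fin m × Fin m × ι × Bool

/-- the value of an item -/
def Strand.ev (S : Strand G ι m) (y : Item ι m) : G :=
  S.B (swap y.1 y.2.1) * (if y.2.2.2 then S.A y.2.2.1 y.2.1 else 1)

/-- the last item on the strand `s` is of type `i` -/
def Open (L : List (Item ι m)) (s : Fin m) (i : ι) : Prop :=
  ∃ L1 L2 u e, L = L1 ++ (u, s, i, e) :: L2 ∧ ∀ y ∈ L2, y.1 ≠ s ∧ y.2.1 ≠ s

theorem Open.replace {L1 L2 : List (Item ι m)} {u s : Fin m} {i : ι} {e e' : Bool} {s' : Fin m}
    {i' : ι} (hs : s' ≠ s) (h : Open (L1 ++ (u, s, i, e) :: L2) s' i') :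
    Open (L1 ++ (u, s, i, e') :: L2) s' i' := by
  obtain ⟨M1, M2, v, f, hL, hM⟩ := h
  rcases List.append_eq_append_iff.1 hL with ⟨as, h1, h2⟩ | ⟨bs, h1, h2⟩
  · rcases as with _ | ⟨x, as⟩
    · simp only [List.nil_append, List.cons.injEq, Prod.mk.injEq] at h2
      exact absurd h2.1.2.1.symm hs
    · simp only [List.cons_append, List.cons.injEq] at h2
      refine ⟨L1 ++ (u, s, i, e') :: as, M2, v, f, ?_, hM⟩
      rw [h2.2]
      simp
  · rcases bs with _ | ⟨x, bs⟩
    · simp only [List.nil_append, List.cons.injEq, Prod.mk.injEq] at h2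
      exact absurd h2.1.2.1 hs
    · simp only [List.cons_append, List.cons.injEq] at h2
      refine ⟨M1, bs ++ (u, s, i, e') :: L2, v, f, ?_, ?_⟩
      · rw [h1, ← h2.1]
        simp
      · intro y hy
        rw [List.mem_append, List.mem_cons] at hy
        rcases hy with hy | hy | hy
        · exact hM y (by rw [h2.2]; exact List.mem_append_left _ hy)
        · rw [hy]
          exact hM (u, s, i, e) (by rw [h2.2]; simp)
        · exact hM y (by rw [h2.2]; simp [hy])

/-- the potential -/
def Place.φ (p : Place ι m D) (o : Option (Option ι)) (t : Fin m) : ℕ :=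
  match o with
  | none => D
  | some T => p.dd T t

theorem Place.φ_step (p : Place ι m D) (o : Option (Option ι)) {j j' : Fin m}
    (hj : (j' : ℕ) = j + 1) : p.φ o j' ≤ p.φ o j + 1 ∧ p.φ o j ≤ p.φ o j' + 1 := by
  rcases o with _ | T
  · exact ⟨Nat.le_succ _, Nat.le_succ _⟩
  · exact p.dm T j j' hj

/-- The invariant. -/
def Strand.St (S : Strand G ι m) (p : Place ι m D) (n : ℕ) (g : G) : Prop :=
  ∃ (σ ρ : Perm (Fin m)) (L : List (Item ι m)) (l : Fin m → Option (Option ι)),
    g = (L.map S.ev).prod * S.B ρ * S.P σ ∧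
    D * L.length + ∑ s, p.φ (l s) (σ⁻¹ s) ≤ D * m + 2 * n ∧
    ∀ s i, l s = some (some i) → ρ s = s ∧ Open L s i

theorem Strand.St_one (S : Strand G ι m) (p : Place ι m D) : S.St p 0 1 := by
  refine ⟨1, 1, [], fun _ => none, by simp, ?_, fun s i h => by simp at h⟩
  simp [Place.φ, Nat.mul_comm]

theorem Strand.ev_comm (S : Strand G ι m) (y : Item ι m) (i : ι) (s : Fin m) (h1 : y.1 ≠ s)
    (h2 : y.2.1 ≠ s) : Commute (S.ev y) (S.A i s) := by
  unfold Strand.ev
  apply Commute.mul_left
  · exact S.BA _ _ _ (swap_apply_of_ne_of_ne h1.symm h2.symm)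
  · split_ifs
    · exact S.AA _ _ _ _ h2
    · exact Commute.one_left _

theorem Strand.prod_comm (S : Strand G ι m) (L : List (Item ι m)) (i : ι) (s : Fin m)
    (h : ∀ y ∈ L, y.1 ≠ s ∧ y.2.1 ≠ s) : Commute (L.map S.ev).prod (S.A i s) := by
  induction L with
  | nil => exact Commute.one_left _
  | cons y L ih =>
    rw [List.map_cons, List.prod_cons]
    exact (S.ev_comm y i s (h y List.mem_cons_self).1 (h y List.mem_cons_self).2).mul_left
      (ih fun z hz => h z (List.mem_cons_of_mem _ hz))

theorem Strand.P_mul_A (S : Strand G ι m) (σ : Perm (Fin m)) (i : ι) (s : Fin m) :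
    S.P σ * S.A i s = S.A i (σ s) * S.P σ := by
  rw [← S.PA σ i s]; group

theorem Strand.P_mul_B (S : Strand G ι m) (σ ρ : Perm (Fin m)) :
    S.P σ * S.B ρ = S.B (σ * ρ * σ⁻¹) * S.P σ := by
  rw [← S.PB σ ρ]; group

theorem Strand.St_swap [DecidableEq ι] (S : Strand G ι m) (p : Place ι m D) {n : ℕ} {g : G}
    (h : S.St p n g) {j j' : Fin m} (hj : (j' : ℕ) = j + 1) : S.St p (n + 1) (g * S.P (swap j j')) := by
  obtain ⟨σ, ρ, L, l, hg, hn, ho⟩ := h
  refine ⟨σ * swap j j', ρ, L, l, ?_, ?_, ho⟩
  · rw [hg, map_mul]; group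
  · have h1 : ∀ s, p.φ (l s) ((σ * swap j j')⁻¹ s) ≤
        p.φ (l s) (σ⁻¹ s) + ((if s = σ j then 1 else 0) + (if s = σ j' then 1 else 0)) := by
      intro s
      have h2 : (σ * swap j j')⁻¹ s = swap j j' (σ⁻¹ s) := by
        rw [mul_inv_rev, swap_inv]; rfl
      rw [h2]
      by_cases h3 : σ⁻¹ s = j
      · have h4 : s = σ j := by rw [← h3]; simp
        rw [h3, swap_apply_left, if_pos h4]
        have := (p.φ_step (l s) hj).1
        omega
      · by_cases h5 : σ⁻¹ s = j'
        · have h4 : s = σ j' := by rw [← h5]; simp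
          rw [h5, swap_apply_right, if_pos h4]
          have := (p.φ_step (l s) hj).2
          omega
        · rw [swap_apply_of_ne_of_ne h3 h5]
          omega
    have h2 := Finset.sum_le_sum (s := Finset.univ) (fun s _ => h1 s)
    rw [Finset.sum_add_distrib, Finset.sum_add_distrib, Finset.sum_ite_eq', Finset.sum_ite_eq'] at h2
    simp only [Finset.mem_univ, if_true] at h2
    omega

theorem Strand.St_b [DecidableEq ι] (S : Strand G ι m) (p : Place ι m D) {n : ℕ} {g : G}
    (h : S.St p n g) : S.St p (n + 1) (g * S.B (swap p.hb p.hb')) := by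
  obtain ⟨σ, ρ, L, l, hg, hn, ho⟩ := h
  refine ⟨σ, ρ * (σ * swap p.hb p.hb' * σ⁻¹), L,
    fun s => if s = σ p.hb ∨ s = σ p.hb' then some none else l s, ?_, ?_, ?_⟩
  · rw [hg, map_mul, mul_assoc _ (S.P σ), S.P_mul_B]; group
  · have h1 : ∀ s, p.φ (if s = σ p.hb ∨ s = σ p.hb' then some none else l s) (σ⁻¹ s) ≤
        p.φ (l s) (σ⁻¹ s) := by
      intro s
      split_ifs with h2
      · have h3 : p.φ (some none) (σ⁻¹ s) = 0 := by
          rcases h2 with h2 | h2
          · rw [h2]; simpa [Place.φ] using p.db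
          · rw [h2]; simpa [Place.φ] using p.db'
        omega
      · exact le_rfl
    have h2 := Finset.sum_le_sum (s := Finset.univ) (fun s _ => h1 s)
    beta_reduce
    omega
  · intro s i hs
    simp only at hs
    split_ifs at hs with h2
    · simp at hs
    · push Not at h2
      obtain ⟨h3, h4⟩ := ho s i hs
      refine ⟨?_, h4⟩
      have h5 : (σ * swap p.hb p.hb' * σ⁻¹) s = s := by
        have h6 : σ⁻¹ s ≠ p.hb := fun h => h2.1 (by rw [← h]; simp)
        have h7 : σ⁻¹ s ≠ p.hb' := fun h => h2.2 (by rw [← h]; simp)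
        rw [Perm.mul_apply, Perm.mul_apply, swap_apply_of_ne_of_ne h6 h7]; simp
      rw [Perm.mul_apply, h5, h3]

theorem Strand.St_a [DecidableEq ι] (S : Strand G ι m) (p : Place ι m D) {n : ℕ} {g : G}
    (h : S.St p n g) (i : ι) : S.St p (n + 1) (g * S.A i (p.h i)) := by
  obtain ⟨σ, ρ, L, l, hg, hn, ho⟩ := h
  set s := σ (p.h i) with hsd
  have hg' : g * S.A i (p.h i) = (L.map S.ev).prod * S.B ρ * S.A i s * S.P σ := by
    rw [hg, mul_assoc _ (S.P σ), S.P_mul_A, hsd]; group
  by_cases hl : l s = some (some i)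
  · obtain ⟨h1, L1, L2, u, e, hL, hf⟩ := ho s i hl
    refine ⟨σ, ρ, L1 ++ (u, s, i, !e) :: L2, l, ?_, ?_, ?_⟩
    · rw [hg', mul_assoc _ (S.B ρ), S.BA ρ i s h1]
      congr 1
      rw [← mul_assoc]
      congr 1
      rw [hL]
      simp only [List.map_append, List.map_cons, List.prod_append, List.prod_cons]
      have h3 := (S.prod_comm L2 i s hf).eq
      rw [mul_assoc, mul_assoc (S.ev (u, s, i, e)), h3]
      congr 1
      rw [← mul_assoc]
      congr 1
      unfold Strand.ev
      cases e
      · simp
      · simp [mul_assoc, S.A2]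
    · have : (L1 ++ (u, s, i, !e) :: L2).length = L.length := by rw [hL]; simp
      rw [this]; omega
    · intro t k ht
      obtain ⟨h4, h5⟩ := ho t k ht
      refine ⟨h4, ?_⟩
      by_cases hts : t = s
      · subst hts
        rw [hl] at ht
        simp only [Option.some.injEq] at ht
        rw [← ht]
        exact ⟨L1, L2, u, !e, rfl, hf⟩
      · rw [hL] at h5
        exact h5.replace hts
  · have hρ : (swap (ρ s) s * ρ) s = s := by simp
    refine ⟨σ, swap (ρ s) s * ρ, L ++ [(ρ s, s, i, true)],
      fun t => if t = s then some (some i) else l t, ?_, ?_, ?_⟩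
    · rw [hg']
      congr 1
      simp only [List.map_append, List.map_cons, List.map_nil, List.prod_append, List.prod_cons,
        List.prod_nil, mul_one]
      rw [mul_assoc, mul_assoc]
      congr 1
      unfold Strand.ev
      simp only [if_true]
      rw [mul_assoc, ← S.BA _ _ _ hρ, ← mul_assoc, ← map_mul, ← mul_assoc, swap_mul_self, one_mul]
    · rw [List.length_append, List.length_singleton]
      have h1 : ∀ t, p.φ (if t = s then some (some i) else l t) (σ⁻¹ t) + (if t = s then D else 0) ≤
          p.φ (l t) (σ⁻¹ t) := by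
        intro t
        by_cases ht : t = s
        · rw [if_pos ht, if_pos ht, ht]
          have h2 : σ⁻¹ s = p.h i := by rw [hsd]; simp
          rw [h2]
          have h3 : p.φ (some (some i)) (p.h i) = 0 := p.d0 i
          rw [h3, zero_add]
          rcases hl' : l s with _ | T
          · exact le_rfl
          · refine p.dD T i ?_
            rintro rfl
            exact hl hl'
        · rw [if_neg ht, if_neg ht]
          exact le_rfl
      have h2 := Finset.sum_le_sum (s := Finset.univ) (fun s _ => h1 s)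
      rw [Finset.sum_add_distrib, Finset.sum_ite_eq'] at h2
      simp only [Finset.mem_univ, if_true] at h2
      have h3 : D * (L.length + 1) = D * L.length + D := by ring
      beta_reduce
      omega
    · intro t k ht
      simp only at ht
      by_cases hts : t = s
      · rw [if_pos hts] at ht
        simp only [Option.some.injEq] at ht
        subst hts
        refine ⟨hρ, L, [], ρ s, true, by rw [ht], by simp⟩
      · rw [if_neg hts] at ht
        obtain ⟨h4, M1, M2, v, f, hL, hf⟩ := ho t k ht
        have h5 : ρ s ≠ t := by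
          intro h
          exact hts (ρ.injective (by rw [h4, h]))
        refine ⟨?_, M1, M2 ++ [(ρ s, s, i, true)], v, f, by rw [hL]; simp, ?_⟩
        · rw [Perm.mul_apply, h4]
          exact swap_apply_of_ne_of_ne (Ne.symm h5) hts
        · intro y hy
          rw [List.mem_append, List.mem_singleton] at hy
          rcases hy with hy | rfl
          · exact hf y hy
          · exact ⟨h5, Ne.symm hts⟩

theorem Strand.St_letter [DecidableEq ι] (S : Strand G ι m) (p : Place ι m D) {n : ℕ} {g z : G}
    (h : S.St p n g) (hz : S.Letter p z) : S.St p (n + 1) (g * z) := by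
  rcases hz with ⟨j, j', hj, rfl⟩ | ⟨i, rfl⟩ | rfl
  · exact S.St_swap p h hj
  · exact S.St_a p h i
  · exact S.St_b p h

theorem Strand.St_prod [DecidableEq ι] (S : Strand G ι m) (p : Place ι m D) (w : List G)
    (hw : ∀ z ∈ w, S.Letter p z) : S.St p w.length w.prod := by
  induction w using List.reverseRecOn with
  | nil => exact S.St_one p
  | append_singleton w z ih =>
    rw [List.length_append, List.prod_append, List.length_singleton, List.prod_singleton]
    exact S.St_letter p (ih fun y hy => hw y (List.mem_append_left _ hy)) (hw z (by simp))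

/-- letters are involutions -/
theorem Strand.Letter.sq {S : Strand G ι m} {p : Place ι m D} {z : G} (hz : S.Letter p z) :
    z * z = 1 := by
  rcases hz with ⟨j, j', hj, rfl⟩ | ⟨i, rfl⟩ | rfl
  · rw [← map_mul, swap_mul_self, map_one]
  · exact S.A2 _ _
  · rw [← map_mul, swap_mul_self, map_one]

/-- the normal forms with `V` items -/
def Strand.nf (S : Strand G ι m) (V : ℕ) (x : (Fin V → Item ι m) × Perm (Fin m) × Perm (Fin m)) : G :=
  (List.ofFn fun k => S.ev (x.1 k)).prod * S.B x.2.1 * S.P x.2.2

/-- **The counting lemma.** -/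
theorem Strand.count [Fintype ι] [DecidableEq ι] [Nonempty ι] (S : Strand G ι m)
    (p : Place ι m D) (hD : 0 < D) (X : Set G) (hX : ∀ z ∈ X, S.Letter p z) (n : ℕ) :
    Set.ncard {g : G | ∃ w : List G, w.length ≤ n ∧ (∀ x ∈ w, x ∈ X ∨ x⁻¹ ∈ X) ∧ w.prod = g} ≤
      (m * (m * (Fintype.card ι * 2))) ^ (m + 2 * n / D) * (m.factorial * m.factorial) := by
  classical
  set V := m + 2 * n / D with hV
  have hsub : {g : G | ∃ w : List G, w.length ≤ n ∧ (∀ x ∈ w, x ∈ X ∨ x⁻¹ ∈ X) ∧ w.prod = g} ⊆
      Set.range (S.nf V) := by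
    rintro g ⟨w, hw, hx, rfl⟩
    have hl : ∀ z ∈ w, S.Letter p z := by
      intro z hz
      rcases hx z hz with h | h
      · exact hX z h
      · have h1 := (hX _ h).sq
        have h2 : z = z⁻¹ := by
          have : z⁻¹ * z⁻¹ = z⁻¹ * z := by rw [h1, inv_mul_cancel]
          exact (mul_left_cancel this).symm
        rw [h2]
        exact hX _ h
    obtain ⟨σ, ρ, L, l, hg, hn, -⟩ := S.St_prod p w hl
    have hlen : L.length ≤ V := by
      have h1 : D * L.length ≤ D * m + 2 * n := by omega
      have h2 : L.length ≤ (D * m + 2 * n) / D := (Nat.le_div_iff_mul_le hD).2 (by rw [mul_comm]; exact h1)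
      rw [Nat.mul_add_div hD] at h2
      exact h2
    have s0 : Fin m := p.hb
    obtain ⟨i0⟩ := ‹Nonempty ι›
    set y0 : Item ι m := (s0, s0, i0, false) with hy0
    have hev : S.ev y0 = 1 := by
      simp only [Strand.ev, hy0, Bool.false_eq_true, if_false, mul_one, swap_self]
      exact map_one S.B
    have hL' : (L ++ List.replicate (V - L.length) y0).length = V := by simp; omega
    refine ⟨(fun k => (L ++ List.replicate (V - L.length) y0).get (k.cast hL'.symm), ρ, σ), ?_⟩
    have h1 : (List.ofFn fun k : Fin V => S.ev ((L ++ List.replicate (V - L.length) y0).get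
        (k.cast hL'.symm))) = (L ++ List.replicate (V - L.length) y0).map S.ev := by
      apply List.ext_getElem
      · rw [List.length_ofFn, List.length_map, hL']
      · intro k h1 h2
        rw [List.getElem_ofFn, List.getElem_map]
        rfl
    have h2 : (List.ofFn fun k : Fin V => S.ev ((L ++ List.replicate (V - L.length) y0).get
        (k.cast hL'.symm))).prod = (L.map S.ev).prod := by
      rw [h1, List.map_append, List.prod_append, List.map_replicate, hev]
      simp
    rw [hg, ← h2]
    rfl
  have h1 : Set.ncard (Set.range (S.nf V)) ≤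
      Nat.card ((Fin V → Item ι m) × Perm (Fin m) × Perm (Fin m)) := by
    rw [← Set.image_univ, ← Set.ncard_univ]
    exact Set.ncard_image_le Set.finite_univ
  refine (Set.ncard_le_ncard hsub (Set.finite_range _)).trans (h1.trans (le_of_eq ?_))
  rw [Nat.card_eq_fintype_card]
  simp [Fintype.card_perm]

end

end Pool.Agent.Q27.VG
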