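import Pool.Agent.Q27.VG.Sys
import Pool.Agent.Q27.VG.Check

/-!
# A finitely presented group of non-uniform exponential growth

The group `GV` is given by four generators (involutions) and finitely many relators, all of which
hold for the transpositions of cones `(0 10)`, `(10 110)`, `(0 1)`, `(10 11)` of Thompson's group `V`;
so it maps onto `V` and has exponential growth (`exp_growth`). For every `D` the group has a
generating set of the following kind (`small_sets`): there are `m = 4 D + 2` strands (the cones
`0, 10, 110, …`), the letters are the adjacent transpositions of the strands, four involutions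
generating the local group of one strand, each on a strand of its own, and the transposition of the
right halves of two adjacent strands; the places of the five last letters are at distance at least
`D` from each other. Two letters of different kinds can meet the same strand only if it travels
over a distance `D`, consecutive letters of one kind on one strand cancel in pairs, and the half
transpositions are collected in a pending permutation. Hence at most
`(8 m²) ^ (m + 2 n / D) (m!)²` elements are products of `n` letters (`Strand.count`), and the growth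
rates tend to `1` as `D → ∞` (`small`).
-/

set_option autoImplicit false

namespace Pool.Agent.Q27.VG

open Equiv

/-- the ball of radius `k` -/
def ball {G : Type} [Group G] (S : Set G) (k : ℕ) : Set G :=
  {g : G | ∃ l : List G, l.length ≤ k ∧ (∀ x ∈ l, x ∈ S ∨ x⁻¹ ∈ S) ∧ l.prod = g}

theorem ball_finite {G : Type} [Group G] {S : Set G} (hS : S.Finite) (k : ℕ) :
    (ball S k).Finite := by
  induction k with
  | zero =>
    apply (Set.finite_singleton (1 : G)).subset
    rintro g ⟨l, hl, -, rfl⟩
    rw [Nat.le_zero, List.length_eq_zero_iff] at hl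
    rw [hl]
    simp
  | succ k ih =>
    have hT : (S ∪ S⁻¹).Finite := hS.union hS.inv
    apply ((Set.finite_singleton (1 : G)).union (hT.mul ih)).subset
    rintro g ⟨l, hl, hx, rfl⟩
    rcases l with _ | ⟨x, l⟩
    · left; simp
    · right
      rw [List.prod_cons]
      refine Set.mul_mem_mul ?_ ⟨l, by simpa using hl, fun y hy => hx y (List.mem_cons_of_mem _ hy), rfl⟩
      rcases hx x List.mem_cons_self with h | h
      · exact Or.inl h
      · exact Or.inr h

/-! ### exponential growth -/

theorem exists_rep : ∃ f : GV →* Equiv.Perm C, ∀ i, f (gens i) = gc i :=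
  exists_hom gc rels_gc rels_gc_one

/-- first free generator -/
noncomputable def uu : GV := (gens 3 * gens 0 * gens 2)⁻¹

/-- second free generator -/
noncomputable def vv : GV := gens 2 * gens 3 * gens 2 * uu

/-- words in the free generators -/
noncomputable def wd (l : List Bool) : GV := (l.map fun b => if b then vv else uu).prod

theorem wd_act (f : GV →* Equiv.Perm C) (hf : ∀ i, f (gens i) = gc i) (l : List Bool) (w : C) :
    f (wd l) (cons false w) = cons false (cat l w) := by
  have hu : ∀ w, f uu (cons false w) = cons false (cons false w) := by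
    intro w
    have h1 : f uu = X0⁻¹ := by
      simp only [uu, map_inv, map_mul, hf]
      rfl
    rw [h1, Equiv.Perm.inv_eq_iff_eq]
    exact (X0_00 w).symm
  have hv : ∀ w, f vv (cons false w) = cons false (cons true w) := by
    intro w
    have h1 : f vv = q0 * lf q0 * q0 * f uu := by
      simp only [vv, map_mul, hf]
      rfl
    rw [h1, Equiv.Perm.mul_apply, hu]
    rfl
  induction l with
  | nil => simp [wd, cat]
  | cons b l ih =>
    have h1 : wd (b :: l) = (if b then vv else uu) * wd l := by simp [wd]
    rw [h1, map_mul, Equiv.Perm.mul_apply, ih]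
    cases b
    · simp only [Bool.false_eq_true, if_false]
      rw [hu]
      rfl
    · simp only [if_true]
      rw [hv]
      rfl

theorem cat_inj {l l' : List Bool} (h : l.length = l'.length) (w : C)
    (hw : cat l w = cat l' w) : l = l' := by
  induction l generalizing l' with
  | nil =>
    rw [List.length_nil] at h
    exact (List.length_eq_zero_iff.1 h.symm).symm
  | cons b l ih =>
    rcases l' with _ | ⟨b', l'⟩
    · simp at h
    · have h0 : b = b' := congrFun hw 0
      have h1 : cat l w = cat l' w := by
        funext n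
        exact congrFun hw (n + 1)
      rw [h0, ih (by simpa using h) h1]

theorem wd_inj {l l' : List Bool} (h : l.length = l'.length) (hw : wd l = wd l') : l = l' := by
  obtain ⟨f, hf⟩ := exists_rep
  have h1 := wd_act f hf l (fun _ => false)
  have h2 := wd_act f hf l' (fun _ => false)
  rw [hw, h2] at h1
  refine cat_inj h (fun _ => false) ?_
  funext n
  exact (congrFun h1 (n + 1)).symm

theorem closure_gens : Subgroup.closure (Set.range gens) = ⊤ := PresentedGroup.closure_range_of _

/-- the group has exponential growth -/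
theorem exp_growth : ∃ S : Finset GV, Subgroup.closure (S : Set GV) = ⊤ ∧ ∃ c : ℝ, 1 < c ∧
    ∀ k : ℕ, c ^ k ≤ (Set.ncard (ball (S : Set GV) k) : ℝ) := by
  classical
  let S : Finset GV := Finset.univ.image gens ∪ {uu, vv}
  refine ⟨S, ?_, 2, by norm_num, ?_⟩
  · rw [eq_top_iff, ← closure_gens]
    apply Subgroup.closure_mono
    rintro _ ⟨i, rfl⟩
    simp [S]
  · intro k
    have h1 : Set.range (fun v : Fin k → Bool => wd (List.ofFn v)) ⊆ ball (S : Set GV) k := by
      rintro _ ⟨v, rfl⟩
      refine ⟨(List.ofFn v).map fun b => if b then vv else uu, by simp, ?_, rfl⟩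
      intro x hx
      rw [List.mem_map] at hx
      obtain ⟨b, -, rfl⟩ := hx
      left
      cases b <;> simp [S]
    have h2 := Set.ncard_le_ncard h1 (ball_finite S.finite_toSet k)
    have h3 : Set.ncard (Set.range (fun v : Fin k → Bool => wd (List.ofFn v))) = 2 ^ k := by
      rw [← Set.image_univ, Set.ncard_image_of_injective, Set.ncard_univ]
      · simp
      · intro v v' hv
        have := wd_inj (by simp) hv
        exact List.ofFn_injective this
    rw [h3] at h2
    exact_mod_cast h2

/-! ### small growth -/

/-- the places -/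
def place (D : ℕ) : Place (Fin 4) (4 * D + 1 + 1) D where
  h i := ⟨i * D, by have : (i : ℕ) * D ≤ 3 * D := Nat.mul_le_mul_right _ (by omega); omega⟩
  hb := ⟨4 * D, by omega⟩
  hb' := ⟨4 * D + 1, by omega⟩
  dd T t := match T with
    | some i => ((t : ℕ) - i * D) + (i * D - t)
    | none => (4 * D - (t : ℕ)) + ((t : ℕ) - (4 * D + 1))
  dm := by
    intro T j j' hj
    rcases T with _ | i
    · simp only
      omega
    · simp only
      generalize (i : ℕ) * D = a
      omega
  d0 := by
    intro i
    simp
  db := by simp
  db' := by simp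
  dD := by
    intro T i hT
    rcases T with _ | k
    · simp only
      have : (i : ℕ) * D ≤ 3 * D := Nat.mul_le_mul_right _ (by omega)
      omega
    · simp only
      have hik : (k : ℕ) ≠ i := fun h => hT (by rw [Fin.ext h])
      rcases Nat.lt_or_gt_of_ne hik with h | h
      · have : ((k : ℕ) + 1) * D ≤ i * D := Nat.mul_le_mul_right _ h
        rw [add_mul, one_mul] at this
        omega
      · have : ((i : ℕ) + 1) * D ≤ k * D := Nat.mul_le_mul_right _ h
        rw [add_mul, one_mul] at this
        omega

/-- For every `D` there is a generating set with few elements in the balls. -/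
theorem small_sets {G : Type} [Group G] {p q : ℕ → G} (h : IsV p q)
    (hgen : ∀ K : Subgroup G, (∀ i, p i ∈ K ∧ q i ∈ K) → K = ⊤) (D : ℕ) (hD : 1 ≤ D) :
    ∃ S : Finset G, Subgroup.closure (S : Set G) = ⊤ ∧ ∀ n : ℕ,
      Set.ncard (ball (S : Set G) n) ≤
        ((4 * D + 2) * ((4 * D + 2) * 8)) ^ (4 * D + 2 + 2 * n / D) *
          ((4 * D + 2).factorial * (4 * D + 2).factorial) := by
  classical
  obtain ⟨S, hP, hB, hA⟩ := h.exists_strand (4 * D + 1) (by omega)
  let X : Finset G := (Finset.univ.image fun i : Fin (4 * D + 1) => S.P (swap i.castSucc i.succ)) ∪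
    (Finset.univ.image fun i : Fin 4 => S.A i ((place D).h i)) ∪
    {S.B (swap (place D).hb (place D).hb')}
  have hX : ∀ z ∈ (X : Set G), S.Letter (place D) z := by
    intro z hz
    simp only [X, Finset.coe_union, Finset.coe_image, Finset.coe_univ, Set.image_univ,
      Finset.coe_singleton, Set.mem_union, Set.mem_range, Set.mem_singleton_iff] at hz
    rcases hz with (⟨i, rfl⟩ | ⟨i, rfl⟩) | rfl
    · left
      exact ⟨i.castSucc, i.succ, by simp, rfl⟩
    · right; left
      exact ⟨i, rfl⟩
    · right; right
      rfl
  refine ⟨X, ?_, ?_⟩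
  · apply hgen
    set K := Subgroup.closure (X : Set G) with hK
    have k1 : ∀ i : Fin (4 * D + 1), S.P (swap i.castSucc i.succ) ∈ K := by
      intro i
      apply Subgroup.subset_closure
      simp [X]
    have k2 : ∀ i : Fin 4, S.A i ((place D).h i) ∈ K := by
      intro i
      apply Subgroup.subset_closure
      simp [X]
    have k3 : S.B (swap (place D).hb (place D).hb') ∈ K := by
      apply Subgroup.subset_closure
      simp [X]
    have k4 : ∀ σ, S.P σ ∈ K := by
      intro σ
      have h1 : Subgroup.closure (Set.range fun i : Fin (4 * D + 1) =>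
          swap i.castSucc i.succ) ≤ K.comap S.P := by
        rw [Subgroup.closure_le]
        rintro _ ⟨i, rfl⟩
        exact k1 i
      have h2 : Subgroup.closure (Set.range fun i : Fin (4 * D + 1) =>
          swap i.castSucc i.succ) = ⊤ :=
        Subgroup.closure_eq_top_of_mclosure_eq_top (Equiv.Perm.mclosure_swap_castSucc_succ _)
      rw [h2] at h1
      exact h1 (Subgroup.mem_top σ)
    have k5 : ∀ i, loc4 p q (4 * D + 1) i ∈ K := by
      intro i
      rw [← hA i]
      have h1 := S.PA (swap ((place D).h i) (Fin.last (4 * D + 1))) i ((place D).h i)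
      rw [swap_apply_left] at h1
      rw [← h1]
      exact mul_mem (mul_mem (k4 _) (k2 i)) (inv_mem (k4 _))
    have k6 : Loc p q (4 * D + 1) ≤ K := by
      apply h.Loc_le
      intro y hy
      simp only [four, List.mem_cons, List.not_mem_nil, or_false] at hy
      rcases hy with rfl | rfl | rfl | rfl
      · exact k5 0
      · exact k5 1
      · exact k5 2
      · exact k5 3
    have e1 : (place D).hb = (⟨4 * D, by omega⟩ : Fin (4 * D + 1)).castSucc := rfl
    have e2 : (place D).hb' = (⟨4 * D, by omega⟩ : Fin (4 * D + 1)).succ := rfl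
    refine h.gen (4 * D) K ?_ ?_ k6 ?_
    · intro i hi
      have h1 := k1 ⟨i, by omega⟩
      rw [hP] at h1
      have h2 : sN p q (4 * D + 1) i = p i := if_pos (by omega)
      rwa [← h2]
    · have h1 := k1 ⟨4 * D, by omega⟩
      rw [hP] at h1
      have h2 : sN p q (4 * D + 1) (4 * D) = q (4 * D) := if_neg (by omega)
      rwa [← h2]
    · rw [e1, e2, hB] at k3
      have h2 : eN p q (4 * D + 1) (4 * D) = bw p q (4 * D) := if_neg (by omega)
      rwa [← h2]
  · intro n
    have h1 := S.count (place D) (by omega) (X : Set G) hX n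
    rw [Fintype.card_fin] at h1
    exact h1

/-- arithmetic -/
theorem arith (c : ℝ) (hc : 1 < c) : ∃ D n : ℕ, 1 ≤ D ∧
    ((((4 * D + 2) * ((4 * D + 2) * 8)) ^ (4 * D + 2 + 2 * n / D) *
          ((4 * D + 2).factorial * (4 * D + 2).factorial) : ℕ) : ℝ) < c ^ n := by
  have hl : 0 < Real.log c := Real.log_pos hc
  obtain ⟨k, hk⟩ := exists_nat_gt (80 / Real.log c)
  have hk0 : (0 : ℝ) < k := lt_trans (by positivity) hk
  have hk1 : 1 ≤ k := by exact_mod_cast Nat.one_le_iff_ne_zero.2 (by rintro rfl; simp at hk0)
  have hkl : 40 / (k : ℝ) < Real.log c / 2 := by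
    rw [div_lt_iff₀ hl] at hk
    rw [div_lt_iff₀ hk0]
    linarith
  set D := k * k with hD
  have hD1 : 1 ≤ D := Nat.mul_pos hk1 hk1
  set m := 4 * D + 2 with hm
  set z := m * (m * 8) with hz
  have hz1 : 1 ≤ z := by
    have : 1 ≤ m := by omega
    nlinarith
  have hlogz : Real.log z ≤ 20 * k := by
    have h1 : (z : ℝ) ≤ (5 * k) ^ 4 := by
      have h2 : z ≤ (5 * k) ^ 4 := by
        have h3 : m ≤ 6 * D := by omega
        calc z ≤ 6 * D * (6 * D * 8) := Nat.mul_le_mul h3 (Nat.mul_le_mul_right _ h3)
          _ = 288 * (k * k * (k * k)) := by rw [hD]; ring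
          _ ≤ 625 * (k * k * (k * k)) := Nat.mul_le_mul_right _ (by norm_num)
          _ = (5 * k) ^ 4 := by ring
      exact_mod_cast h2
    have h2 : Real.log z ≤ Real.log ((5 * k) ^ 4) :=
      Real.log_le_log (by exact_mod_cast hz1) h1
    rw [Real.log_pow] at h2
    have h3 : Real.log (5 * k) ≤ 5 * k - 1 := Real.log_le_sub_one_of_pos (by positivity)
    push_cast at h2
    linarith
  have hlogz0 : 0 ≤ Real.log z := Real.log_nonneg (by exact_mod_cast hz1)
  set F := m.factorial * m.factorial with hF
  have hF1 : 1 ≤ F := Nat.mul_pos (Nat.factorial_pos _) (Nat.factorial_pos _)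
  set A := m * Real.log z + Real.log F with hA
  obtain ⟨n, hn⟩ := exists_nat_gt (max 1 (2 * A / Real.log c))
  have hn1 : (1 : ℝ) < n := lt_of_le_of_lt (le_max_left _ _) hn
  have hn2 : A < n * (Real.log c / 2) := by
    have h1 := lt_of_le_of_lt (le_max_right _ _) hn
    rw [div_lt_iff₀ hl] at h1
    linarith
  refine ⟨D, n, hD1, ?_⟩
  have hpos : (0 : ℝ) < ((z ^ (m + 2 * n / D) * F : ℕ) : ℝ) := by
    have : 0 < z ^ (m + 2 * n / D) * F := Nat.mul_pos (Nat.pow_pos hz1) hF1
    exact_mod_cast this
  rw [← Real.log_lt_log_iff hpos (by positivity)]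
  rw [Nat.cast_mul, Nat.cast_pow, Real.log_mul (by positivity) (by positivity), Real.log_pow,
    Real.log_pow]
  have h1 : ((2 * n / D : ℕ) : ℝ) ≤ 2 * n / D := by
    have := @Nat.cast_div_le ℝ _ _ _ (2 * n) D
    push_cast at this
    exact this
  have h2 : (2 * (n : ℝ) / D) * Real.log z ≤ n * (40 / k) := by
    have hD0 : (D : ℝ) = k * k := by rw [hD]; push_cast; ring
    calc (2 * (n : ℝ) / D) * Real.log z ≤ (2 * (n : ℝ) / D) * (20 * k) :=
          mul_le_mul_of_nonneg_left hlogz (by positivity)
      _ = n * (40 / k) := by
          rw [hD0]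
          field_simp
          ring
  have h3 : ((2 * n / D : ℕ) : ℝ) * Real.log z ≤ n * (40 / k) :=
    (mul_le_mul_of_nonneg_right h1 hlogz0).trans h2
  have h4 : (n : ℝ) * (40 / k) < n * (Real.log c / 2) :=
    mul_lt_mul_of_pos_left hkl (by linarith)
  push_cast
  nlinarith

theorem small (c : ℝ) (hc : 1 < c) : ∃ S : Finset GV, Subgroup.closure (S : Set GV) = ⊤ ∧
    ∃ k : ℕ, (Set.ncard (ball (S : Set GV) k) : ℝ) < c ^ k := by
  obtain ⟨D, n, hD, h1⟩ := arith c hc
  obtain ⟨S, hS, h2⟩ := small_sets isV_gens (by
    intro K hK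
    rw [eq_top_iff, ← closure_gens, Subgroup.closure_le]
    rintro _ ⟨i, rfl⟩
    fin_cases i
    · exact (hK 0).1
    · exact (hK 1).1
    · exact (hK 0).2
    · exact (hK 1).2) D hD
  refine ⟨S, hS, n, lt_of_le_of_lt ?_ h1⟩
  exact_mod_cast h2 n

end Pool.Agent.Q27.VG
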