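import Mathlib

/-!
# The relations

Two sequences `p`, `q` of elements of a group, modelled on the elements `(1^i 0, 1^(i+1) 0)` and
`(1^i 0, 1^(i+1))` (transpositions of cones) of Thompson's group `V`.
-/

set_option autoImplicit false

namespace Pool.Agent.Q27.VG

section
variable {G : Type} [Group G]

/-- the element `00 ↦ 0, 01 ↦ 10, 1 ↦ 11` on the cone `1^i` -/
def xw (p q : ℕ → G) (i : ℕ) : G := q (i + 1) * p i * q i

/-- the transposition `(1^i 01, 1^i 11)` -/
def bw (p q : ℕ → G) (i : ℕ) : G := (xw p q i)⁻¹ * p (i + 1) * q (i + 2) * p (i + 1) * xw p q i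

/-- the transposition `(1^i 01, 1^i 101)` -/
def ew (p q : ℕ → G) (i : ℕ) : G := q (i + 1) * p i * bw p q (i + 1) * p i * q (i + 1)

/-- `p i` as a product of conjugates of `bw i` by elements of the local groups -/
def gpw (p q : ℕ → G) (i : ℕ) : G :=
  q i * q (i + 1) * q i * (q (i + 1) * p (i + 1) * q (i + 1)) * bw p q i *
    (q (i + 1) * p (i + 1) * q (i + 1)) * (q i * q (i + 1) * q i) *
    ((q (i + 1) * q (i + 2) * p (i + 1) * q (i + 2) * q (i + 1)) * bw p q i *
      (q (i + 1) * q (i + 2) * p (i + 1) * q (i + 2) * q (i + 1)))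

/-- auxiliary: the transposition `(1^i 00, 1^i 10)` -/
def gk (p q : ℕ → G) (i : ℕ) : G := p i * (xw p q (i + 1))⁻¹ * p i

/-- auxiliary: the transposition `(1^i 00, 1^i 10)` -/
def gew (p q : ℕ → G) (i : ℕ) : G := gk p q i * p i * (gk p q i)⁻¹

/-- auxiliary -/
def gf (p q : ℕ → G) (i : ℕ) : G := p i * q (i + 1) * q (i + 2) * q (i + 1) * p i * q (i + 1)

/-- `q i` as a product of elements of the group generated by `p i` and the local group of `1^(i+1)` -/
def gqw (p q : ℕ → G) (i : ℕ) : G := gew p q i * (gf p q i * gew p q i * (gf p q i)⁻¹)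

/-- four elements -/
def four (p q : ℕ → G) (i : ℕ) : List G := [p i, q i, p (i + 1), q (i + 1)]

/-- the relations with smallest index `i` -/
def rl (p q : ℕ → G) (i : ℕ) : List (G × G) :=
  [(p i * p i, 1), (q i * q i, 1), (bw p q i * bw p q i, 1), (ew p q i * ew p q i, 1),
    (xw p q i * p (i + 1) * (xw p q i)⁻¹, p (i + 2)), (xw p q i * q (i + 1) * (xw p q i)⁻¹, q (i + 2)),
    (p i * p (i + 1) * p i, p (i + 1) * p i * p (i + 1)),
    (p i * q (i + 1) * p i, q (i + 1) * p i * q (i + 1)),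
    (ew p q i * ew p q (i + 1) * ew p q i, ew p q (i + 1) * ew p q i * ew p q (i + 1)),
    (ew p q i * bw p q (i + 1) * ew p q i, bw p q (i + 1) * ew p q i * bw p q (i + 1)),
    (p i * ew p q i, ew p q i * p i), (q i * bw p q i, bw p q i * q i),
    (p (i + 1) * ew p q i * p (i + 1), ew p q (i + 1) * ew p q i * ew p q (i + 1)),
    (p i * ew p q (i + 1) * p i, ew p q i * ew p q (i + 1) * ew p q i),
    (q (i + 1) * ew p q i * q (i + 1), bw p q (i + 1) * ew p q i * bw p q (i + 1)),
    (p i * bw p q (i + 1) * p i, ew p q i * bw p q (i + 1) * ew p q i),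
    (p i, gpw p q i), (q i, gqw p q i)] ++
  (four p q (i + 2)).map (fun y => (p i * y, y * p i)) ++
  (four p q (i + 2)).map (fun y => (ew p q i * y, y * ew p q i)) ++
  (four p q (i + 1)).flatMap (fun y =>
    (four p q (i + 1)).map (fun z => (y * (q i * z * q i), q i * z * q i * y)))

/-- the relations with smallest index `i` hold -/
structure Rels (p q : ℕ → G) (i : ℕ) : Prop where
  pp : p i * p i = 1
  qq : q i * q i = 1
  bb : bw p q i * bw p q i = 1
  ee : ew p q i * ew p q i = 1
  xp : xw p q i * p (i + 1) * (xw p q i)⁻¹ = p (i + 2)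
  xq : xw p q i * q (i + 1) * (xw p q i)⁻¹ = q (i + 2)
  bpp : p i * p (i + 1) * p i = p (i + 1) * p i * p (i + 1)
  bpq : p i * q (i + 1) * p i = q (i + 1) * p i * q (i + 1)
  bee : ew p q i * ew p q (i + 1) * ew p q i = ew p q (i + 1) * ew p q i * ew p q (i + 1)
  beb : ew p q i * bw p q (i + 1) * ew p q i = bw p q (i + 1) * ew p q i * bw p q (i + 1)
  pe : p i * ew p q i = ew p q i * p i
  qb : q i * bw p q i = bw p q i * q i
  r1 : p (i + 1) * ew p q i * p (i + 1) = ew p q (i + 1) * ew p q i * ew p q (i + 1)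
  r2 : p i * ew p q (i + 1) * p i = ew p q i * ew p q (i + 1) * ew p q i
  r3 : q (i + 1) * ew p q i * q (i + 1) = bw p q (i + 1) * ew p q i * bw p q (i + 1)
  r4 : p i * bw p q (i + 1) * p i = ew p q i * bw p q (i + 1) * ew p q i
  gp : p i = gpw p q i
  gq : q i = gqw p q i
  pc : ∀ y ∈ four p q (i + 2), p i * y = y * p i
  ec : ∀ y ∈ four p q (i + 2), ew p q i * y = y * ew p q i
  lc : ∀ y ∈ four p q (i + 1), ∀ z ∈ four p q (i + 1), y * (q i * z * q i) = q i * z * q i * y

theorem rels_iff (p q : ℕ → G) (i : ℕ) : (∀ r ∈ rl p q i, r.1 = r.2) ↔ Rels p q i := by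
  unfold rl
  simp only [List.forall_mem_append, List.forall_mem_cons, List.mem_flatMap,
    List.mem_map, List.not_mem_nil, false_imp_iff, implies_true, and_true]
  constructor
  · rintro ⟨⟨⟨⟨h1, h2, h3, h4, h5, h6, h7, h8, h9, h10, h11, h12, h13, h14, h15, h16, h17, h18⟩, h19⟩,
      h20⟩, h21⟩
    exact ⟨h1, h2, h3, h4, h5, h6, h7, h8, h9, h10, h11, h12, h13, h14, h15, h16, h17, h18,
      fun y hy => h19 _ ⟨y, hy, rfl⟩, fun y hy => h20 _ ⟨y, hy, rfl⟩,
      fun y hy z hz => h21 _ ⟨y, hy, z, hz, rfl⟩⟩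
  · intro h
    refine ⟨⟨⟨⟨h.pp, h.qq, h.bb, h.ee, h.xp, h.xq, h.bpp, h.bpq, h.bee, h.beb, h.pe, h.qb, h.r1,
      h.r2, h.r3, h.r4, h.gp, h.gq⟩, ?_⟩, ?_⟩, ?_⟩
    · rintro x ⟨y, hy, rfl⟩
      exact h.pc y hy
    · rintro x ⟨y, hy, rfl⟩
      exact h.ec y hy
    · rintro x ⟨y, hy, z, hz, rfl⟩
      exact h.lc y hy z hz

variable {H : Type} [Group H]

theorem rl_map (f : G →* H) (p q : ℕ → G) (i : ℕ) :
    rl (f ∘ p) (f ∘ q) i = (rl p q i).map (Prod.map f f) := by
  simp only [rl, four, gqw, gpw, gew, gf, gk, ew, bw, xw, Function.comp, List.map_append,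
    List.map_cons, List.map_nil, Prod.map, map_mul, map_inv, map_one, List.flatMap_cons,
    List.flatMap_nil]

theorem Rels.map {p q : ℕ → G} {i : ℕ} (h : Rels p q i) (f : G →* H) :
    Rels (f ∘ p) (f ∘ q) i := by
  rw [← rels_iff] at h ⊢
  rw [rl_map]
  intro r hr
  rw [List.mem_map] at hr
  obtain ⟨s, hs, rfl⟩ := hr
  exact congrArg f (h s hs)

/-- the relations depend only on the values at indices at least `i` -/
theorem Rels.congr {p q p' q' : ℕ → G} {i k : ℕ} (h : Rels p q i)
    (hp : ∀ j, p' (j + k) = p (j + i)) (hq : ∀ j, q' (j + k) = q (j + i)) : Rels p' q' k := by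
  have e : rl p' q' k = rl p q i := by
    have p0 : p' k = p i := by simpa using hp 0
    have p1 : p' (k + 1) = p (i + 1) := by simpa [Nat.add_comm] using hp 1
    have p2 : p' (k + 2) = p (i + 2) := by simpa [Nat.add_comm] using hp 2
    have p3 : p' (k + 3) = p (i + 3) := by simpa [Nat.add_comm] using hp 3
    have q0 : q' k = q i := by simpa using hq 0
    have q1 : q' (k + 1) = q (i + 1) := by simpa [Nat.add_comm] using hq 1
    have q2 : q' (k + 2) = q (i + 2) := by simpa [Nat.add_comm] using hq 2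
    have q3 : q' (k + 3) = q (i + 3) := by simpa [Nat.add_comm] using hq 3
    have q4 : q' (k + 4) = q (i + 4) := by simpa [Nat.add_comm] using hq 4
    simp only [rl, four, gqw, gpw, gew, gf, gk, ew, bw, xw, Nat.add_assoc, Nat.reduceAdd, p0, p1, p2, p3,
      q0, q1, q2, q3, q4]
  rw [← rels_iff] at h ⊢
  rw [e]
  exact h

/-- the sequence `a, b, X b X⁻¹, X² b X⁻², …` -/
def sq (X a b : G) : ℕ → G
  | 0 => a
  | 1 => b
  | j + 2 => X * sq X a b (j + 1) * X⁻¹

theorem sq_map (f : G →* H) (X a b : G) : f ∘ sq X a b = sq (f X) (f a) (f b) := by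
  funext j
  induction j with
  | zero => rfl
  | succ j ih =>
    rcases j with _ | j
    · rfl
    · simp only [Function.comp, sq, map_mul, map_inv] at ih ⊢
      rw [ih]

/-- the sequence `p` -/
def ps (g : Fin 4 → G) : ℕ → G := sq (g 3 * g 0 * g 2) (g 0) (g 1)

/-- the sequence `q` -/
def qs (g : Fin 4 → G) : ℕ → G := sq (g 3 * g 0 * g 2) (g 2) (g 3)

theorem ps_map (f : G →* H) (g : Fin 4 → G) : f ∘ ps g = ps (f ∘ g) := by
  unfold ps
  rw [sq_map]
  simp [Function.comp]

theorem qs_map (f : G →* H) (g : Fin 4 → G) : f ∘ qs g = qs (f ∘ g) := by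
  unfold qs
  rw [sq_map]
  simp [Function.comp]

/-- all relations -/
def IsV (p q : ℕ → G) : Prop := ∀ i, Rels p q i

theorem isV_of (g : Fin 4 → G) (h0 : Rels (ps g) (qs g) 0) (h1 : Rels (ps g) (qs g) 1) :
    IsV (ps g) (qs g) := by
  have h : ∀ i, Rels (ps g) (qs g) (i + 1) := by
    intro i
    induction i with
    | zero => exact h1
    | succ i ih =>
      have h2 := ih.map (MulAut.conj (g 3 * g 0 * g 2)).toMonoidHom
      refine h2.congr ?_ ?_
      · intro j
        rfl
      · intro j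
        rfl
  intro i
  rcases i with _ | i
  · exact h0
  · exact h i

end

/-- the finite set of relators -/
noncomputable def relators : Finset (FreeGroup (Fin 4)) :=
  letI := Classical.decEq (FreeGroup (Fin 4))
  ((rl (ps (FreeGroup.of)) (qs (FreeGroup.of)) 0 ++ rl (ps (FreeGroup.of)) (qs (FreeGroup.of)) 1).map
    fun r => r.1 * r.2⁻¹).toFinset

theorem mem_relators (r : FreeGroup (Fin 4)) : r ∈ relators ↔
    ∃ i < 2, ∃ s ∈ rl (ps (FreeGroup.of)) (qs (FreeGroup.of)) i, s.1 * s.2⁻¹ = r := by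
  unfold relators
  simp only [List.mem_toFinset, List.mem_map, List.mem_append]
  constructor
  · rintro ⟨s, hs | hs, rfl⟩
    · exact ⟨0, by omega, s, hs, rfl⟩
    · exact ⟨1, by omega, s, hs, rfl⟩
  · rintro ⟨i, hi, s, hs, rfl⟩
    interval_cases i
    · exact ⟨s, Or.inl hs, rfl⟩
    · exact ⟨s, Or.inr hs, rfl⟩

/-- the group -/
abbrev GV : Type := PresentedGroup (relators : Set (FreeGroup (Fin 4)))

/-- its generators -/
noncomputable def gens : Fin 4 → GV := fun i => PresentedGroup.of i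

theorem isV_gens : IsV (ps gens) (qs gens) := by
  have key : ∀ i < 2, Rels (ps gens) (qs gens) i := by
    intro i hi
    rw [← rels_iff]
    intro r hr
    have e1 : ps gens = (PresentedGroup.mk (relators : Set (FreeGroup (Fin 4)))) ∘ ps FreeGroup.of := by
      rw [ps_map]; rfl
    have e2 : qs gens = (PresentedGroup.mk (relators : Set (FreeGroup (Fin 4)))) ∘ qs FreeGroup.of := by
      rw [qs_map]; rfl
    rw [e1, e2, rl_map, List.mem_map] at hr
    obtain ⟨s, hs, rfl⟩ := hr
    have h1 : s.1 * s.2⁻¹ ∈ (relators : Set (FreeGroup (Fin 4))) := by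
      rw [Finset.mem_coe, mem_relators]
      exact ⟨i, hi, s, hs, rfl⟩
    have h2 := PresentedGroup.one_of_mem h1
    rw [map_mul, map_inv] at h2
    exact mul_inv_eq_one.1 h2
  exact isV_of gens (key 0 (by omega)) (key 1 (by omega))

/-- homomorphisms out of the group -/
theorem exists_hom {H : Type} [Group H] (g : Fin 4 → H) (h0 : Rels (ps g) (qs g) 0)
    (h1 : Rels (ps g) (qs g) 1) : ∃ f : GV →* H, ∀ i, f (gens i) = g i := by
  have key : ∀ r ∈ (relators : Set (FreeGroup (Fin 4))), FreeGroup.lift g r = 1 := by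
    intro r hr
    rw [Finset.mem_coe, mem_relators] at hr
    obtain ⟨i, hi, s, hs, rfl⟩ := hr
    have e1 : ps g = (FreeGroup.lift g) ∘ ps FreeGroup.of := by
      rw [ps_map]
      congr 1
      funext i
      simp
    have e2 : qs g = (FreeGroup.lift g) ∘ qs FreeGroup.of := by
      rw [qs_map]
      congr 1
      funext i
      simp
    have h2 : Rels (ps g) (qs g) i := by interval_cases i <;> assumption
    rw [← rels_iff, e1, e2, rl_map] at h2
    have h3 := h2 (Prod.map (FreeGroup.lift g) (FreeGroup.lift g) s) (List.mem_map_of_mem hs)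
    rw [map_mul, map_inv, mul_inv_eq_one]
    exact h3
  exact ⟨PresentedGroup.toGroup key, fun i => PresentedGroup.toGroup.of key⟩

end Pool.Agent.Q27.VG
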