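import Mathlib

/-!
# The stabiliser of the last point in the symmetric group
-/

set_option autoImplicit false

namespace Pool.Agent.Q27.VG

open Equiv

/-- adjacent transpositions which do not move the last point -/
def lowSwaps (N : ℕ) : Set (Perm (Fin (N + 1))) :=
  {σ | ∃ i : Fin N, (i : ℕ) + 1 < N ∧ σ = swap i.castSucc i.succ}

theorem stab_last (N : ℕ) (σ : Perm (Fin (N + 1))) (h : σ (Fin.last N) = Fin.last N) :
    σ ∈ Subgroup.closure (lowSwaps N) := by
  classical
  set e := (finSuccEquivLast : Fin (N + 1) ≃ Option (Fin N)) with he
  have key : ∀ τ : Perm (Fin N), e.symm.permCongr (optionCongr τ) ∈ Subgroup.closure (lowSwaps N) := by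
    rcases N with _ | M
    · intro τ
      have : e.symm.permCongr (optionCongr τ) = 1 := by
        apply Equiv.ext
        intro x
        exact Subsingleton.elim (α := Fin 1) _ _
      rw [this]
      exact Subgroup.one_mem _
    · intro τ
      have hτ : τ ∈ Submonoid.closure (Set.range fun i : Fin M => swap i.castSucc i.succ) := by
        rw [Equiv.Perm.mclosure_swap_castSucc_succ]
        exact Submonoid.mem_top _
      induction hτ using Submonoid.closure_induction with
      | mem x hx =>
        obtain ⟨i, rfl⟩ := hx
        apply Subgroup.subset_closure
        refine ⟨i.castSucc, by simp, ?_⟩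
        rw [optionCongr_swap, permCongr_def, symm_trans_swap_trans]
        have e1 : ∀ k : Fin (M + 1), e.symm (some k) = k.castSucc := fun k => by simp [he]
        rw [e1, e1]
        rfl
      | one =>
        have : e.symm.permCongr (optionCongr (1 : Perm (Fin (M + 1)))) = 1 := by
          apply Equiv.ext
          intro x
          simp [permCongr_apply]
        rw [this]
        exact Subgroup.one_mem _
      | mul x y _ _ hx hy =>
        have : e.symm.permCongr (optionCongr (x * y)) =
            e.symm.permCongr (optionCongr x) * e.symm.permCongr (optionCongr y) := by
          apply Equiv.ext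
          intro z
          simp only [permCongr_apply, Perm.mul_apply, symm_symm, optionCongr_apply, apply_symm_apply,
            Option.map_map]
          rfl
        rw [this]
        exact Subgroup.mul_mem _ hx hy
  have h1 : e.permCongr σ none = none := by
    rw [permCongr_apply]
    have : e.symm none = Fin.last N := by simp [he]
    rw [this, h]
    simp [he]
  have h2 := map_equiv_removeNone (e.permCongr σ)
  rw [h1, swap_self] at h2
  have h3 := key (removeNone (e.permCongr σ))
  rw [h2] at h3
  have h4 : e.symm.permCongr (Equiv.refl _ * e.permCongr σ) = σ := by
    apply Equiv.ext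
    intro z
    simp [permCongr_apply, Perm.mul_apply]
  rw [h4] at h3
  exact h3

end Pool.Agent.Q27.VG
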