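import Pool.Agent.Q27.VG.Rel
import Pool.Agent.Q27.VG.Stab
import Pool.Agent.Q27.VG.Count
import Pool.Agent.Q20.Kf.Cox

/-!
# The strand systems of a group satisfying the relations
-/

set_option autoImplicit false

namespace Pool.Agent.Q27.VG

open Equiv

section
variable {G : Type} [Group G] {p q : ℕ → G}

/-- the local group of the cone `1^k` -/
def Loc (p q : ℕ → G) (k : ℕ) : Subgroup G :=
  Subgroup.closure {g | ∃ j, k ≤ j ∧ (g = p j ∨ g = q j)}

theorem p_mem_Loc {k j : ℕ} (h : k ≤ j) : p j ∈ Loc p q k :=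
  Subgroup.subset_closure ⟨j, h, Or.inl rfl⟩

theorem q_mem_Loc {k j : ℕ} (h : k ≤ j) : q j ∈ Loc p q k :=
  Subgroup.subset_closure ⟨j, h, Or.inr rfl⟩

theorem Loc_anti {k k' : ℕ} (h : k ≤ k') : Loc p q k' ≤ Loc p q k := by
  apply Subgroup.closure_mono
  rintro g ⟨j, hj, hg⟩
  exact ⟨j, h.trans hj, hg⟩

theorem xw_mem {k i : ℕ} (h : k ≤ i) : xw p q i ∈ Loc p q k :=
  mul_mem (mul_mem (q_mem_Loc (by omega)) (p_mem_Loc h)) (q_mem_Loc h)

theorem bw_mem {k i : ℕ} (h : k ≤ i) : bw p q i ∈ Loc p q k :=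
  mul_mem (mul_mem (mul_mem (mul_mem (inv_mem (xw_mem h)) (p_mem_Loc (by omega)))
    (q_mem_Loc (by omega))) (p_mem_Loc (by omega))) (xw_mem h)

theorem ew_mem {k i : ℕ} (h : k ≤ i) : ew p q i ∈ Loc p q k :=
  mul_mem (mul_mem (mul_mem (mul_mem (q_mem_Loc (by omega)) (p_mem_Loc h))
    (bw_mem (by omega))) (p_mem_Loc h)) (q_mem_Loc (by omega))

theorem four_mem {k i : ℕ} (h : k ≤ i) : ∀ y ∈ four p q i, y ∈ Loc p q k := by
  intro y hy
  simp only [four, List.mem_cons, List.not_mem_nil, or_false] at hy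
  rcases hy with rfl | rfl | rfl | rfl
  · exact p_mem_Loc h
  · exact q_mem_Loc h
  · exact p_mem_Loc (by omega)
  · exact q_mem_Loc (by omega)

theorem IsV.Loc_le (h : IsV p q) {k : ℕ} (K : Subgroup G) (hK : ∀ y ∈ four p q k, y ∈ K) :
    Loc p q k ≤ K := by
  have key : ∀ j, k ≤ j → (p j ∈ K ∧ q j ∈ K) ∧ (p (j + 1) ∈ K ∧ q (j + 1) ∈ K) := by
    intro j hj
    induction j, hj using Nat.le_induction with
    | base =>
      refine ⟨⟨hK _ ?_, hK _ ?_⟩, ⟨hK _ ?_, hK _ ?_⟩⟩ <;> simp [four]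
    | succ j hj ih =>
      obtain ⟨⟨h1, h2⟩, h3, h4⟩ := ih
      have hx : xw p q j ∈ K := mul_mem (mul_mem h4 h1) h2
      refine ⟨⟨h3, h4⟩, ?_, ?_⟩
      · rw [← (h j).xp]
        exact mul_mem (mul_mem hx h3) (inv_mem hx)
      · rw [← (h j).xq]
        exact mul_mem (mul_mem hx h4) (inv_mem hx)
  unfold Loc
  rw [Subgroup.closure_le]
  rintro g ⟨j, hj, rfl | rfl⟩
  · exact (key j hj).1.1
  · exact (key j hj).1.2

theorem IsV.comm_of_four (h : IsV p q) {k : ℕ} {z : G} (hz : ∀ y ∈ four p q k, z * y = y * z)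
    {y : G} (hy : y ∈ Loc p q k) : Commute z y := by
  have h1 : Loc p q k ≤ Subgroup.centralizer {z} := by
    apply h.Loc_le
    intro y hy
    rw [Subgroup.mem_centralizer_singleton_iff]
    exact (hz y hy).symm
  have h2 := h1 hy
  rw [Subgroup.mem_centralizer_singleton_iff] at h2
  exact h2.symm

theorem IsV.comm_p (h : IsV p q) {i k : ℕ} (hk : i + 2 ≤ k) {z : G} (hz : z ∈ Loc p q k) :
    Commute (p i) z :=
  h.comm_of_four (h i).pc (Loc_anti hk hz)

theorem IsV.comm_e (h : IsV p q) {i k : ℕ} (hk : i + 2 ≤ k) {z : G} (hz : z ∈ Loc p q k) :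
    Commute (ew p q i) z :=
  h.comm_of_four (h i).ec (Loc_anti hk hz)

theorem IsV.q_inv (h : IsV p q) (i : ℕ) : (q i)⁻¹ = q i :=
  inv_eq_of_mul_eq_one_left (h i).qq

theorem IsV.p_inv (h : IsV p q) (i : ℕ) : (p i)⁻¹ = p i :=
  inv_eq_of_mul_eq_one_left (h i).pp

theorem IsV.comm_loc (h : IsV p q) (i : ℕ) {y z : G} (hy : y ∈ Loc p q (i + 1))
    (hz : z ∈ Loc p q (i + 1)) : Commute y (q i * z * q i) := by
  have h1 : ∀ z ∈ four p q (i + 1), Commute y (q i * z * q i) := by
    intro z hz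
    refine (h.comm_of_four (z := q i * z * q i) ?_ hy).symm
    intro y hy
    exact ((h i).lc y hy z hz).symm
  have h2 : Loc p q (i + 1) ≤ (Subgroup.centralizer {y}).comap (MulAut.conj (q i)).toMonoidHom := by
    apply h.Loc_le
    intro z hz
    rw [Subgroup.mem_comap, Subgroup.mem_centralizer_singleton_iff]
    have h3 := h1 z hz
    simp only [MulEquiv.coe_toMonoidHom, MulAut.conj_apply, h.q_inv]
    exact h3.symm
  have h3 := h2 hz
  rw [Subgroup.mem_comap, Subgroup.mem_centralizer_singleton_iff] at h3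
  simp only [MulEquiv.coe_toMonoidHom, MulAut.conj_apply, h.q_inv] at h3
  exact h3.symm

/-- adjacent transpositions of the strands -/
def sN (p q : ℕ → G) (N i : ℕ) : G := if i + 1 < N then p i else q i

/-- adjacent half transpositions of the strands -/
def eN (p q : ℕ → G) (N i : ℕ) : G := if i + 1 < N then ew p q i else bw p q i

theorem eN_mem (N : ℕ) {k i : ℕ} (h : k ≤ i) : eN p q N i ∈ Loc p q k := by
  unfold eN
  split_ifs
  · exact ew_mem h
  · exact bw_mem h

theorem sN_mem (N : ℕ) {k i : ℕ} (h : k ≤ i) : sN p q N i ∈ Loc p q k := by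
  unfold sN
  split_ifs
  · exact p_mem_Loc h
  · exact q_mem_Loc h

theorem IsV.exists_P (h : IsV p q) (N : ℕ) : ∃ f : Perm (Fin (N + 1)) →* G,
    ∀ i : Fin N, f (swap i.castSucc i.succ) = sN p q N i := by
  apply Pool.Agent.Q20.Kf.Cox.cox_lift N (sN p q N)
  · intro i _
    unfold sN
    split_ifs
    · exact (h i).pp
    · exact (h i).qq
  · intro i hi
    unfold sN
    rw [if_pos hi]
    split_ifs
    · exact (h i).bpp
    · exact (h i).bpq
  · intro i j hij hj
    have h1 : sN p q N i = p i := if_pos (by omega)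
    rw [h1]
    exact h.comm_p (k := j) (by omega) (sN_mem N le_rfl)

theorem IsV.exists_B (h : IsV p q) (N : ℕ) : ∃ f : Perm (Fin (N + 1)) →* G,
    ∀ i : Fin N, f (swap i.castSucc i.succ) = eN p q N i := by
  apply Pool.Agent.Q20.Kf.Cox.cox_lift N (eN p q N)
  · intro i _
    unfold eN
    split_ifs
    · exact (h i).ee
    · exact (h i).bb
  · intro i hi
    unfold eN
    rw [if_pos hi]
    split_ifs
    · exact (h i).bee
    · exact (h i).beb
  · intro i j hij hj
    have h1 : eN p q N i = ew p q i := if_pos (by omega)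
    rw [h1]
    exact h.comm_e (k := j) (by omega) (eN_mem N le_rfl)

/-- conjugation of half transpositions by transpositions -/
theorem IsV.base (h : IsV p q) (N i j : ℕ) (hi : i < N) (hj : j < N) :
    sN p q N i * eN p q N j * (sN p q N i)⁻¹ = eN p q N i * eN p q N j * (eN p q N i)⁻¹ := by
  have hs2 : ∀ i, (sN p q N i)⁻¹ = sN p q N i := by
    intro i
    unfold sN
    split_ifs
    · exact h.p_inv i
    · exact h.q_inv i
  have he2 : ∀ i, (eN p q N i)⁻¹ = eN p q N i := by
    intro i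
    unfold eN
    split_ifs
    · exact inv_eq_of_mul_eq_one_left (h i).ee
    · exact inv_eq_of_mul_eq_one_left (h i).bb
  rcases lt_trichotomy i j with hij | rfl | hij
  · have e1 : sN p q N i = p i := if_pos (by omega)
    have e2 : eN p q N i = ew p q i := if_pos (by omega)
    rcases Nat.lt_or_ge (i + 1) j with h2 | h2
    · have h3 : eN p q N j ∈ Loc p q j := eN_mem N le_rfl
      rw [e1, e2, (h.comm_p (by omega) h3).eq, (h.comm_e (by omega) h3).eq]
      group
    · have h3 : j = i + 1 := by omega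
      rw [hs2, he2, e1, e2, h3]
      unfold eN
      split_ifs
      · exact (h i).r2
      · exact (h i).r4
  · have h1 : Commute (sN p q N i) (eN p q N i) := by
      unfold sN eN
      split_ifs
      · exact (h i).pe
      · exact (h i).qb
    rw [h1.eq]
    group
  · have e2 : eN p q N j = ew p q j := if_pos (by omega)
    rcases Nat.lt_or_ge (j + 1) i with h2 | h2
    · have h3 : sN p q N i ∈ Loc p q i := sN_mem N le_rfl
      have h4 : eN p q N i ∈ Loc p q i := eN_mem N le_rfl
      rw [e2, ← (h.comm_e (i := j) (by omega) h3).eq, ← (h.comm_e (i := j) (by omega) h4).eq]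
      group
    · have h3 : i = j + 1 := by omega
      rw [hs2, he2, e2, h3]
      unfold sN eN
      split_ifs
      · exact (h j).r1
      · exact (h j).r3

/-- the local letters on the last strand -/
def loc4 (p q : ℕ → G) (N : ℕ) : Fin 4 → G := ![p N, q N, p (N + 1), q (N + 1)]

theorem loc4_mem (N : ℕ) (k : Fin 4) : loc4 p q N k ∈ Loc p q N := by
  fin_cases k
  · exact p_mem_Loc le_rfl
  · exact q_mem_Loc le_rfl
  · exact p_mem_Loc (by omega)
  · exact q_mem_Loc (by omega)

theorem IsV.loc4_sq (h : IsV p q) (N : ℕ) (k : Fin 4) : loc4 p q N k * loc4 p q N k = 1 := by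
  fin_cases k
  · exact (h _).pp
  · exact (h _).qq
  · exact (h _).pp
  · exact (h _).qq

theorem closure_adj (N : ℕ) :
    Submonoid.closure (Set.range fun i : Fin N => swap i.castSucc i.succ) = ⊤ :=
  Equiv.Perm.mclosure_swap_castSucc_succ N

/-- **The strand systems.** -/
theorem IsV.exists_strand (h : IsV p q) (N : ℕ) (hN : 1 ≤ N) : ∃ S : Strand G (Fin 4) (N + 1),
    (∀ i : Fin N, S.P (swap i.castSucc i.succ) = sN p q N i) ∧
    (∀ i : Fin N, S.B (swap i.castSucc i.succ) = eN p q N i) ∧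
    (∀ k, S.A k (Fin.last N) = loc4 p q N k) := by
  obtain ⟨P, hP⟩ := h.exists_P N
  obtain ⟨B, hB⟩ := h.exists_B N
  have hPc : ∀ σ : Perm (Fin (N + 1)), σ (Fin.last N) = Fin.last N → ∀ z ∈ Loc p q N,
      Commute (P σ) z := by
    intro σ hσ z hz
    have h1 := stab_last N σ hσ
    have h2 : Subgroup.closure (lowSwaps N) ≤ (Subgroup.centralizer {z}).comap P := by
      rw [Subgroup.closure_le]
      rintro _ ⟨i, hi, rfl⟩
      rw [SetLike.mem_coe, Subgroup.mem_comap, Subgroup.mem_centralizer_singleton_iff, hP]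
      have e1 : sN p q N i = p i := if_pos hi
      rw [e1]
      exact (h.comm_p (by omega) hz)
    have h3 := h2 h1
    rw [Subgroup.mem_comap, Subgroup.mem_centralizer_singleton_iff] at h3
    exact h3
  have hBc : ∀ σ : Perm (Fin (N + 1)), σ (Fin.last N) = Fin.last N → ∀ z ∈ Loc p q N,
      Commute (B σ) z := by
    intro σ hσ z hz
    have h1 := stab_last N σ hσ
    have h2 : Subgroup.closure (lowSwaps N) ≤ (Subgroup.centralizer {z}).comap B := by
      rw [Subgroup.closure_le]
      rintro _ ⟨i, hi, rfl⟩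
      rw [SetLike.mem_coe, Subgroup.mem_comap, Subgroup.mem_centralizer_singleton_iff, hB]
      have e1 : eN p q N i = ew p q i := if_pos hi
      rw [e1]
      exact (h.comm_e (by omega) hz)
    have h3 := h2 h1
    rw [Subgroup.mem_comap, Subgroup.mem_centralizer_singleton_iff] at h3
    exact h3
  have hconj : ∀ z ∈ Loc p q N, ∀ σ σ' : Perm (Fin (N + 1)), σ (Fin.last N) = σ' (Fin.last N) →
      P σ * z * (P σ)⁻¹ = P σ' * z * (P σ')⁻¹ := by
    intro z hz σ σ' hσ
    have h1 : (σ'⁻¹ * σ) (Fin.last N) = Fin.last N := by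
      rw [Perm.mul_apply, hσ]; simp
    have h2 := (hPc _ h1 z hz).eq
    rw [map_mul, map_inv] at h2
    calc P σ * z * (P σ)⁻¹ = P σ' * ((P σ')⁻¹ * P σ * z) * (P σ)⁻¹ := by group
      _ = _ := by rw [h2]; group
  have hPB : ∀ σ ρ : Perm (Fin (N + 1)), P σ * B ρ * (P σ)⁻¹ = B (σ * ρ * σ⁻¹) := by
    intro σ
    have hσ : σ ∈ Submonoid.closure (Set.range fun i : Fin N => swap i.castSucc i.succ) := by
      rw [closure_adj]
      exact Submonoid.mem_top _
    induction hσ using Submonoid.closure_induction with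
    | mem x hx =>
      obtain ⟨i, rfl⟩ := hx
      intro ρ
      have h1 : ((MulAut.conj (P (swap i.castSucc i.succ))).toMonoidHom.comp B) =
          (B.comp (MulAut.conj (swap i.castSucc i.succ)).toMonoidHom) := by
        apply MonoidHom.eq_of_eqOn_denseM (closure_adj N)
        rintro _ ⟨j, rfl⟩
        simp only [MonoidHom.coe_comp, Function.comp_apply, MulEquiv.coe_toMonoidHom,
          MulAut.conj_apply, map_mul, map_inv, hP, hB]
        exact h.base N i j i.2 j.2
      have h2 := DFunLike.congr_fun h1 ρ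
      simpa [MulAut.conj_apply] using h2
    | one => intro ρ; simp
    | mul x y _ _ hx hy =>
      intro ρ
      have : P (x * y) * B ρ * (P (x * y))⁻¹ = P x * (P y * B ρ * (P y)⁻¹) * (P x)⁻¹ := by
        rw [map_mul]; group
      rw [this, hy, hx]
      exact congrArg B (by group)
  let A : Fin 4 → Fin (N + 1) → G := fun k s =>
    P (swap s (Fin.last N)) * loc4 p q N k * (P (swap s (Fin.last N)))⁻¹
  have hA : ∀ k s (σ : Perm (Fin (N + 1))), σ (Fin.last N) = s →
      A k s = P σ * loc4 p q N k * (P σ)⁻¹ := by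
    intro k s σ hσ
    apply hconj _ (loc4_mem N k)
    rw [swap_apply_right, hσ]
  set pen : Fin (N + 1) := (⟨N - 1, by omega⟩ : Fin N).castSucc with hpen
  have hpl : pen ≠ Fin.last N := by
    rw [hpen]
    intro h
    have := congrArg Fin.val h
    simp at this
    omega
  have hlast : (⟨N - 1, by omega⟩ : Fin N).succ = Fin.last N := by
    ext
    simp
    omega
  have hPpen : P (swap pen (Fin.last N)) = q (N - 1) := by
    rw [hpen, ← hlast, hP]
    exact if_neg (by simp; omega)
  refine ⟨⟨P, B, A, ?_, hPB, ?_, ?_, ?_⟩, hP, hB, ?_⟩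
  · intro σ k s
    rw [hA k s (swap s (Fin.last N)) (swap_apply_right _ _),
      hA k (σ s) (σ * swap s (Fin.last N)) (by rw [Perm.mul_apply, swap_apply_right]), map_mul]
    group
  · intro ρ k s hρ
    set σ := swap s (Fin.last N) with hσ
    rw [hA k s σ (swap_apply_right _ _)]
    have h1 : B ρ = P σ * B (σ⁻¹ * ρ * σ) * (P σ)⁻¹ := by
      rw [hPB]
      exact congrArg B (by group)
    have h2 : (σ⁻¹ * ρ * σ) (Fin.last N) = Fin.last N := by
      rw [Perm.mul_apply, Perm.mul_apply]
      have : σ (Fin.last N) = s := swap_apply_right _ _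
      rw [this, hρ, ← this]
      simp
    have h3 := (hBc _ h2 _ (loc4_mem N k)).eq
    calc B ρ * (P σ * loc4 p q N k * (P σ)⁻¹)
        = P σ * (B (σ⁻¹ * ρ * σ) * loc4 p q N k) * (P σ)⁻¹ := by rw [h1]; group
      _ = P σ * (loc4 p q N k * B (σ⁻¹ * ρ * σ)) * (P σ)⁻¹ := by rw [h3]
      _ = _ := by rw [h1]; group
  · intro k l s t hst
    set σ1 := swap s (Fin.last N) with hσ1
    set σ := swap t (σ1 pen) * σ1 with hσ
    have e1 : σ (Fin.last N) = s := by
      rw [hσ, Perm.mul_apply, hσ1, swap_apply_right]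
      apply swap_apply_of_ne_of_ne hst
      intro h
      apply hpl
      apply (swap s (Fin.last N)).injective
      rw [← h, swap_apply_right]
    have e2 : σ pen = t := by
      rw [hσ, Perm.mul_apply, swap_apply_right]
    have e3 : P (σ * swap pen (Fin.last N)) = P σ * q (N - 1) := by
      rw [map_mul P σ (swap pen (Fin.last N)), hPpen]
    rw [hA k s σ e1, hA l t (σ * swap pen (Fin.last N)) (by
      rw [Perm.mul_apply, swap_apply_right, e2]), e3]
    have h3 := (h.comm_loc (N - 1) (y := loc4 p q N k) (z := loc4 p q N l)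
      (by rw [Nat.sub_add_cancel hN]; exact loc4_mem N k)
      (by rw [Nat.sub_add_cancel hN]; exact loc4_mem N l)).eq
    have h4 := h.q_inv (N - 1)
    calc P σ * loc4 p q N k * (P σ)⁻¹ * (P σ * q (N - 1) * loc4 p q N l * (P σ * q (N - 1))⁻¹)
        = P σ * (loc4 p q N k * (q (N - 1) * loc4 p q N l * (q (N - 1))⁻¹)) * (P σ)⁻¹ := by group
      _ = P σ * ((q (N - 1) * loc4 p q N l * (q (N - 1))⁻¹) * loc4 p q N k) * (P σ)⁻¹ := by
          rw [h4, h3]
      _ = _ := by group
  · intro k s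
    have h1 := h.loc4_sq N k
    change P (swap s (Fin.last N)) * loc4 p q N k * (P (swap s (Fin.last N)))⁻¹ *
      (P (swap s (Fin.last N)) * loc4 p q N k * (P (swap s (Fin.last N)))⁻¹) = 1
    calc _ = P (swap s (Fin.last N)) * (loc4 p q N k * loc4 p q N k) *
        (P (swap s (Fin.last N)))⁻¹ := by group
      _ = 1 := by rw [h1]; group
  · intro k
    change P (swap (Fin.last N) (Fin.last N)) * loc4 p q N k *
      (P (swap (Fin.last N) (Fin.last N)))⁻¹ = _
    rw [swap_self]
    have : P (Equiv.refl (Fin (N + 1))) = 1 := map_one P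
    rw [this]
    group

/-- generation -/
theorem IsV.gen (h : IsV p q) (M : ℕ) (K : Subgroup G) (hp : ∀ i, i < M → p i ∈ K)
    (hq : q M ∈ K) (hL : Loc p q (M + 1) ≤ K) (hb : bw p q M ∈ K) :
    ∀ i, p i ∈ K ∧ q i ∈ K := by
  have m1 : ∀ j, M + 1 ≤ j → p j ∈ K := fun j hj => hL (p_mem_Loc hj)
  have m2 : ∀ j, M + 1 ≤ j → q j ∈ K := fun j hj => hL (q_mem_Loc hj)
  have hpM : p M ∈ K := by
    rw [(h M).gp]
    have a1 := m1 (M + 1) le_rfl
    have a2 := m2 (M + 1) le_rfl
    have a3 := m2 (M + 2) (by omega)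
    have b1 : q M * q (M + 1) * q M ∈ K := mul_mem (mul_mem hq a2) hq
    have b2 : q (M + 1) * p (M + 1) * q (M + 1) ∈ K := mul_mem (mul_mem a2 a1) a2
    have b3 : q (M + 1) * q (M + 2) * p (M + 1) * q (M + 2) * q (M + 1) ∈ K :=
      mul_mem (mul_mem (mul_mem (mul_mem a2 a3) a1) a3) a2
    exact mul_mem (mul_mem (mul_mem (mul_mem (mul_mem b1 b2) hb) b2) b1) (mul_mem (mul_mem b3 hb) b3)
  have hp' : ∀ i, p i ∈ K := by
    intro i
    rcases lt_trichotomy i M with h1 | rfl | h1
    · exact hp i h1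
    · exact hpM
    · exact m1 i h1
  have key : ∀ d, d ≤ M + 1 → Loc p q (M + 1 - d) ≤ K := by
    intro d
    induction d with
    | zero => intro _; exact hL
    | succ d ih =>
      intro hd
      have h1 := ih (by omega)
      obtain ⟨k, hk⟩ : ∃ k, M + 1 - (d + 1) = k := ⟨_, rfl⟩
      have hk' : M + 1 - d = k + 1 := by omega
      rw [hk'] at h1
      rw [hk]
      have a1 : p (k + 1) ∈ K := h1 (p_mem_Loc le_rfl)
      have a2 : q (k + 1) ∈ K := h1 (q_mem_Loc le_rfl)
      have a3 : q (k + 2) ∈ K := h1 (q_mem_Loc (by omega))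
      have a4 : xw p q (k + 1) ∈ K := h1 (xw_mem le_rfl)
      have a5 := hp' k
      have hqk : q k ∈ K := by
        rw [(h k).gq]
        have b1 : gk p q k ∈ K := mul_mem (mul_mem a5 (inv_mem a4)) a5
        have b2 : gew p q k ∈ K := mul_mem (mul_mem b1 a5) (inv_mem b1)
        have b3 : gf p q k ∈ K := mul_mem (mul_mem (mul_mem (mul_mem (mul_mem a5 a2) a3) a2) a5) a2
        exact mul_mem b2 (mul_mem (mul_mem b3 b2) (inv_mem b3))
      apply h.Loc_le
      intro y hy
      simp only [four, List.mem_cons, List.not_mem_nil, or_false] at hy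
      rcases hy with rfl | rfl | rfl | rfl
      · exact a5
      · exact hqk
      · exact a1
      · exact a2
  have h0 := key (M + 1) le_rfl
  rw [Nat.sub_self] at h0
  exact fun i => ⟨h0 (p_mem_Loc (Nat.zero_le i)), h0 (q_mem_Loc (Nat.zero_le i))⟩

end

end Pool.Agent.Q27.VG
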